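import Pool.Agent.Y432.KC.K7

set_option autoImplicit false

namespace Pool.Agent.Y432.KC

open Finset Filter Pool.Agent.Helper46.A Pool.Agent.Helper46
open Pool.Agent.Helper46.A.F (bs_22726 mem_bs_22726 bs_isBF_22726 bs_inj_22726 finX_22726
  mm_le_22726 card_le_22726)

theorem ev_k : ∀ᶠ n : ℕ in atTop, ∀ k : ℕ, (k : ℝ) ≤ Real.log n / 20 →
    (4 : ℝ) * 81 ^ (k + 3) ≤ Real.sqrt (Real.sqrt n) := by
  have h1 : Tendsto (fun n : ℕ => Real.exp (7 / 1000 * Real.log n)) atTop atTop :=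
    Real.tendsto_exp_atTop.comp (Tendsto.const_mul_atTop (by norm_num)
      (Real.tendsto_log_atTop.comp tendsto_natCast_atTop_atTop))
  filter_upwards [h1.eventually_ge_atTop (4 * 81 ^ 3), eventually_ge_atTop 1] with n hn hn1 k hk
  have hn0 : (0 : ℝ) < n := by exact_mod_cast hn1
  have hL0 : 0 ≤ Real.log n := Real.log_nonneg (by exact_mod_cast hn1)
  have e1 : Real.sqrt (Real.sqrt n) = Real.exp (1 / 4 * Real.log n) := by
    rw [Real.sqrt_eq_rpow, Real.sqrt_eq_rpow, ← Real.rpow_mul hn0.le,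
      Real.rpow_def_of_pos hn0]
    congr 1
    ring
  have e2 : (81 : ℝ) ^ k ≤ Real.exp (243 / 1000 * Real.log n) := by
    calc (81 : ℝ) ^ k ≤ (2 ^ 7) ^ k := pow_le_pow_left₀ (by norm_num) (by norm_num) _
      _ = Real.exp (7 * k * Real.log 2) := by
        rw [← pow_mul, ← Real.rpow_natCast, Real.rpow_def_of_pos (by norm_num)]
        congr 1
        push_cast
        ring
      _ ≤ _ := by
        apply Real.exp_le_exp.2
        have := Real.log_two_lt_d9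
        have h2 : 0 ≤ Real.log 2 := Real.log_nonneg (by norm_num)
        have hk0 : (0 : ℝ) ≤ k := Nat.cast_nonneg _
        nlinarith
  rw [e1, pow_add]
  calc (4 : ℝ) * (81 ^ k * 81 ^ 3) = (4 * 81 ^ 3) * 81 ^ k := by ring
    _ ≤ Real.exp (7 / 1000 * Real.log n) * Real.exp (243 / 1000 * Real.log n) := by gcongr
    _ = Real.exp (1 / 4 * Real.log n) := by
      rw [← Real.exp_add]
      congr 1
      ring

theorem mm_big : ∀ᶠ n : ℕ in atTop, (2 : ℝ) ^ (n ^ 2) ≤ mm n := by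
  filter_upwards [AN.E5.num3 AN.E1.tail, eventually_ge_atTop 2] with n h3 hn
  have hmm := mm_lower (n := n) (by omega)
  refine le_trans ?_ (h3.1.trans hmm)
  calc (2 : ℝ) ^ (n ^ 2) = 1 * 2 ^ (n ^ 2) := (one_mul _).symm
    _ ≤ 2 ^ (AN.Fs n) * 2 ^ (n ^ 2 + n + 2) := by
      apply mul_le_mul (one_le_pow₀ (by norm_num)) _ (by positivity) (by positivity)
      exact pow_le_pow_right₀ (by norm_num) (by omega)

theorem ev_fact : ∀ᶠ n : ℕ in atTop,
    (2 * (n : ℝ) ^ 2 + 4) * (n.factorial : ℝ) ≤ 2 ^ (n ^ 2 / 2) := by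
  have h1 : Tendsto (fun n : ℕ => (n : ℝ) ^ 4 / (2 : ℝ) ^ n) atTop (nhds 0) :=
    tendsto_pow_const_div_const_pow_of_one_lt 4 (by norm_num)
  have h2 : ∀ᶠ n : ℕ in atTop, (n : ℝ) ^ 4 / (2 : ℝ) ^ n < 1 / 1 :=
    h1.eventually (gt_mem_nhds (by norm_num))
  have h3 : Tendsto (fun n : ℕ => (n : ℝ) ^ 2 / (2 : ℝ) ^ n) atTop (nhds 0) :=
    tendsto_pow_const_div_const_pow_of_one_lt 2 (by norm_num)
  have h4 : ∀ᶠ n : ℕ in atTop, (n : ℝ) ^ 2 / (2 : ℝ) ^ n < 1 / 12 :=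
    h3.eventually (gt_mem_nhds (by norm_num))
  filter_upwards [h2, h4, eventually_ge_atTop 8] with n a1 a2 hn
  have hn' : (8 : ℝ) ≤ n := by exact_mod_cast hn
  rw [div_lt_div_iff₀ (by positivity) (by norm_num)] at a1 a2
  have hf : (n.factorial : ℝ) ≤ (n : ℝ) ^ n := by exact_mod_cast Nat.factorial_le_pow n
  -- n^(4 n) ≤ 2^(n^2)
  have b1 : ((n : ℝ) ^ 4) ^ n ≤ ((2 : ℝ) ^ n) ^ n := by
    apply pow_le_pow_left₀ (by positivity)
    linarith
  have b2 : ((n : ℝ) ^ n) ^ 4 ≤ (2 : ℝ) ^ (n ^ 2) := by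
    calc ((n : ℝ) ^ n) ^ 4 = ((n : ℝ) ^ 4) ^ n := by rw [← pow_mul, ← pow_mul, mul_comm]
      _ ≤ ((2 : ℝ) ^ n) ^ n := b1
      _ = 2 ^ (n ^ 2) := by rw [← pow_mul, sq]
  -- the exponent n^2/2 splits
  have b3 : 2 * (n ^ 2 / 2) + 1 ≥ n ^ 2 := by omega
  have b4 : (n : ℝ) ^ n ≤ 2 ^ (n ^ 2 / 4 + 1) := by
    have h : ((n : ℝ) ^ n) ^ 4 ≤ ((2 : ℝ) ^ (n ^ 2 / 4 + 1)) ^ 4 := by
      refine b2.trans ?_
      rw [← pow_mul]
      exact pow_le_pow_right₀ (by norm_num) (by omega)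
    exact le_of_pow_le_pow_left₀ (by norm_num) (by positivity) h
  have b5 : (2 * (n : ℝ) ^ 2 + 4) ≤ 2 ^ n / 4 := by nlinarith
  have b6 : n ^ 2 / 4 + 1 + n ≤ n ^ 2 / 2 + 2 := by
    have : 8 * n ≤ n ^ 2 := by nlinarith
    omega
  calc (2 * (n : ℝ) ^ 2 + 4) * (n.factorial : ℝ) ≤ (2 ^ n / 4) * 2 ^ (n ^ 2 / 4 + 1) := by
        apply mul_le_mul b5 (hf.trans b4) (by positivity) (by positivity)
    _ = 2 ^ (n ^ 2 / 4 + 1 + n) / 4 := by rw [pow_add _ (n ^ 2 / 4 + 1)]; ring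
    _ ≤ 2 ^ (n ^ 2 / 2 + 2) / 4 := by
        apply div_le_div_of_nonneg_right _ (by norm_num)
        exact pow_le_pow_right₀ (by norm_num) b6
    _ = 2 ^ (n ^ 2 / 2) := by rw [pow_add]; ring

/-- few labelled matroids are not `k`-connected -/
theorem labelled_bound : ∀ᶠ n : ℕ in atTop, ∀ k : ℕ, (k : ℝ) ≤ Real.log n / 20 →
    (Nat.card {M : LM n // ¬ KConn k M.1} : ℝ) * 2 ^ (n ^ 2) ≤
      (2 * (n : ℝ) ^ 2 + 4) * (Nat.card (LM n) : ℝ) := by
  filter_upwards [ev_k, total, mm_big] with n hk htot hbig k hkn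
  have h1 := htot k (hk k hkn)
  rw [natcard_Cl]
  have h2 := card_not n k
  have h2' : ((Cl (fun M : LM n => ¬ KConn k M.1)).card : ℝ) ≤
      2 * (∑ r ∈ range (n + 1), ((badR n r k).card : ℝ)) +
        2 * (1 + (n : ℝ) ^ 2 * (∑ r ∈ range (n + 1), ((badR n r k).card : ℝ))) := by
    exact_mod_cast h2
  have h3 : mm n ≤ (Nat.card (LM n) : ℝ) := mm_le_22726 n
  set T : ℝ := ∑ r ∈ range (n + 1), ((badR n r k).card : ℝ) with hT
  have hP : (0 : ℝ) < 2 ^ (n ^ 2) := by positivity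
  have hn2 : (0 : ℝ) ≤ (n : ℝ) ^ 2 := by positivity
  calc ((Cl (fun M : LM n => ¬ KConn k M.1)).card : ℝ) * 2 ^ (n ^ 2)
      ≤ (2 * T + 2 * (1 + (n : ℝ) ^ 2 * T)) * 2 ^ (n ^ 2) :=
        mul_le_mul_of_nonneg_right h2' hP.le
    _ = (2 + 2 * (n : ℝ) ^ 2) * (T * 2 ^ (n ^ 2)) + 2 * 2 ^ (n ^ 2) := by ring
    _ ≤ (2 + 2 * (n : ℝ) ^ 2) * mm n + 2 * mm n := by
        have := mul_le_mul_of_nonneg_left h1 (by positivity : (0 : ℝ) ≤ 2 + 2 * (n : ℝ) ^ 2)
        linarith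
    _ = (2 * (n : ℝ) ^ 2 + 4) * mm n := by ring
    _ ≤ _ := mul_le_mul_of_nonneg_left h3 (by positivity)

/-- classes with a member that is not `k`-connected -/
theorem class_le (n k : ℕ) :
    Nat.card {q : Quot (Iso (n := n)) // ¬ ∀ M : LM n, Quot.mk _ M = q → KConn k M.1} ≤
      Nat.card {M : LM n // ¬ KConn k M.1} := by
  classical
  have h : ∀ q : {q : Quot (Iso (n := n)) // ¬ ∀ M : LM n, Quot.mk _ M = q → KConn k M.1},
      ∃ M : LM n, Quot.mk _ M = q.1 ∧ ¬ KConn k M.1 := by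
    intro q
    have := q.2
    push Not at this
    exact this
  choose f hf using h
  refine Nat.card_le_card_of_injective (fun q => ⟨f q, (hf q).2⟩) ?_
  intro q q' hqq
  have h1 : f q = f q' := congrArg Subtype.val hqq
  apply Subtype.ext
  rw [← (hf q).1, ← (hf q').1, h1]

/-- the main estimate -/
theorem both_bounds : ∀ᶠ n : ℕ in atTop, ∀ k : ℕ, (k : ℝ) ≤ Real.log n / 20 →
    (Nat.card {M : LM n // ¬ KConn k M.1} : ℝ) * 2 ^ (n ^ 2 / 2) ≤ (Nat.card (LM n) : ℝ) ∧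
    (Nat.card {q : Quot (Iso (n := n)) // ¬ ∀ M : LM n, Quot.mk _ M = q → KConn k M.1} : ℝ) *
      2 ^ (n ^ 2 / 2) ≤ (Nat.card (Quot (Iso (n := n))) : ℝ) := by
  filter_upwards [labelled_bound, ev_fact] with n h hf k hk
  have h1 := h k hk
  set a : ℝ := (Nat.card {M : LM n // ¬ KConn k M.1} : ℝ) with ha
  have ha0 : 0 ≤ a := Nat.cast_nonneg _
  have hfac : (1 : ℝ) ≤ (n.factorial : ℝ) := by exact_mod_cast Nat.one_le_iff_ne_zero.2 (Nat.factorial_ne_zero n)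
  set P : ℝ := (2 : ℝ) ^ (n ^ 2 / 2) with hP
  have hP0 : 0 < P := by positivity
  have hPP : P * P ≤ 2 ^ (n ^ 2) := by
    rw [hP, ← pow_add]
    exact pow_le_pow_right₀ (by norm_num) (by omega)
  -- a * P * n! ≤ l
  have h2 : a * P * (n.factorial : ℝ) ≤ (Nat.card (LM n) : ℝ) := by
    have e1 : a * (P * P) ≤ (2 * (n : ℝ) ^ 2 + 4) * (Nat.card (LM n) : ℝ) :=
      (mul_le_mul_of_nonneg_left hPP ha0).trans h1
    have hc : (0 : ℝ) < 2 * (n : ℝ) ^ 2 + 4 := by positivity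
    have e2 : a * P * (n.factorial : ℝ) * (2 * (n : ℝ) ^ 2 + 4) ≤
        (Nat.card (LM n) : ℝ) * (2 * (n : ℝ) ^ 2 + 4) := by
      calc a * P * (n.factorial : ℝ) * (2 * (n : ℝ) ^ 2 + 4)
          = (a * P) * ((2 * (n : ℝ) ^ 2 + 4) * (n.factorial : ℝ)) := by ring
        _ ≤ (a * P) * P := mul_le_mul_of_nonneg_left hf (by positivity)
        _ = a * (P * P) := by ring
        _ ≤ _ := e1
        _ = _ := by ring
    exact le_of_mul_le_mul_right e2 hc
  have h3 : a * P ≤ a * P * (n.factorial : ℝ) := le_mul_of_one_le_right (by positivity) hfac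
  refine ⟨h3.trans h2, ?_⟩
  have h4 : (Nat.card (LM n) : ℝ) ≤ (Nat.card (Quot (Iso (n := n))) : ℝ) * (n.factorial : ℝ) := by
    have := card_le_22726 n
    exact_mod_cast this
  have h5 : a * P ≤ (Nat.card (Quot (Iso (n := n))) : ℝ) :=
    le_of_mul_le_mul_right (h2.trans h4) (by linarith)
  refine le_trans ?_ h5
  apply mul_le_mul_of_nonneg_right _ hP0.le
  rw [ha]
  exact_mod_cast class_le n k

instance finQ (n : ℕ) : Finite (Quot (Iso (n := n))) := by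
  have := finX_22726 n
  exact Quot.finite _

theorem posLM (n : ℕ) : 0 < Nat.card (LM n) := by
  have := finX_22726 n
  have : Nonempty (LM n) := ⟨⟨Matroid.loopyOn Set.univ, rfl⟩⟩
  exact Nat.card_pos

theorem posQ (n : ℕ) : 0 < Nat.card (Quot (Iso (n := n))) := by
  have : Nonempty (LM n) := ⟨⟨Matroid.loopyOn Set.univ, rfl⟩⟩
  have : Nonempty (Quot (Iso (n := n))) := ⟨Quot.mk _ (Classical.arbitrary _)⟩
  exact Nat.card_pos

theorem frac_tendsto {α : ℕ → Type} [∀ n, Finite (α n)] (P : ∀ n, α n → Prop)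
    (hpos : ∀ n, 0 < Nat.card (α n))
    (h : ∀ᶠ n : ℕ in atTop, (Nat.card {x : α n // ¬ P n x} : ℝ) * 2 ^ (n ^ 2 / 2) ≤
      (Nat.card (α n) : ℝ)) :
    Tendsto (fun n : ℕ => (Nat.card {x : α n // P n x} : ℝ) / (Nat.card (α n) : ℝ)) atTop
      (nhds 1) := by
  classical
  have hlow : Tendsto (fun n : ℕ => 1 - (1 / 2 : ℝ) ^ (n ^ 2 / 2)) atTop (nhds 1) := by
    have h0 : Tendsto (fun n : ℕ => n ^ 2 / 2) atTop atTop := by
      apply tendsto_atTop_mono (f := fun n : ℕ => n - 1) _ (tendsto_sub_atTop_nat 1)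
      intro n
      rcases Nat.lt_or_ge n 2 with h | h
      · interval_cases n <;> simp
      · have : 2 * (n - 1) ≤ n ^ 2 := by nlinarith [Nat.sub_le n 1]
        omega
    have h1 := (tendsto_pow_atTop_nhds_zero_of_lt_one (r := (1 / 2 : ℝ)) (by norm_num)
      (by norm_num)).comp h0
    have h2 := h1.const_sub 1
    rw [sub_zero] at h2
    exact h2
  refine tendsto_of_tendsto_of_tendsto_of_le_of_le' hlow tendsto_const_nhds ?_ ?_
  · filter_upwards [h] with n hn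
    have : Fintype (α n) := Fintype.ofFinite _
    have hadd : Nat.card {x : α n // P n x} + Nat.card {x : α n // ¬ P n x} = Nat.card (α n) := by
      rw [Nat.card_eq_fintype_card, Nat.card_eq_fintype_card, Nat.card_eq_fintype_card,
        Fintype.card_subtype, Fintype.card_subtype, Finset.card_filter_add_card_filter_not,
        Finset.card_univ]
    have hadd' : (Nat.card {x : α n // P n x} : ℝ) + (Nat.card {x : α n // ¬ P n x} : ℝ) =
        (Nat.card (α n) : ℝ) := by exact_mod_cast hadd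
    have hp : (0 : ℝ) < (Nat.card (α n) : ℝ) := by exact_mod_cast hpos n
    rw [le_div_iff₀ hp]
    have hP : (0 : ℝ) < 2 ^ (n ^ 2 / 2) := by positivity
    have h1 : (Nat.card {x : α n // ¬ P n x} : ℝ) ≤
        (Nat.card (α n) : ℝ) * (1 / 2 : ℝ) ^ (n ^ 2 / 2) := by
      rw [one_div, inv_pow, ← div_eq_mul_inv, le_div_iff₀ hP]
      exact hn
    linarith
  · refine Eventually.of_forall fun n => ?_
    apply div_le_one_of_le₀ _ (Nat.cast_nonneg _)
    exact_mod_cast Nat.card_le_card_of_injective _ Subtype.val_injective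

end Pool.Agent.Y432.KC
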