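import Mathlib

set_option autoImplicit false

namespace Pool.Agent.Y432.KC

/-- the labelled matroids with `n` elements: the matroids on the ground set `Fin n` -/
abbrev LM (n : ℕ) : Type := {M : Matroid (Fin n) // M.E = Set.univ}

/-- `(X, Y)` is a `j`-separation of `M`: a partition of the ground set into two sets with at
least `j` elements each and with `r(X) + r(Y) - r(M) ≤ j - 1` -/
def IsSep {n : ℕ} (M : Matroid (Fin n)) (j : ℕ) (X Y : Set (Fin n)) : Prop :=
  Disjoint X Y ∧ X ∪ Y = M.E ∧ (j : ℕ∞) ≤ X.encard ∧ (j : ℕ∞) ≤ Y.encard ∧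
    M.eRk X + M.eRk Y + 1 ≤ M.eRank + j

/-- `M` is `k`-connected: there is no `j`-separation with `j < k` -/
def KConn {n : ℕ} (k : ℕ) (M : Matroid (Fin n)) : Prop :=
  ∀ j < k, ∀ X Y : Set (Fin n), ¬ IsSep M j X Y

/-- isomorphism of matroids on `Fin n` -/
def Iso {n : ℕ} (M N : LM n) : Prop :=
  ∃ σ : Equiv.Perm (Fin n), ∀ B : Set (Fin n), M.1.IsBase B ↔ N.1.IsBase (σ '' B)

end Pool.Agent.Y432.KC
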