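import Pool.Agent.Helper46.A.G1

set_option autoImplicit false

namespace Pool.Agent.Y432.KC

open Finset Pool.Agent.Helper46.A

theorem bf_mem_tie {n r l : ℕ} {B : Fam n} (hB : IsBF r B) :
    ∀ X Y : Finset (Fin n), tie (info l r B) X Y → (X ∈ B ↔ Y ∈ B) :=
  fun _ _ h => C2.tie_mem hB h

theorem bf_Q {n r l : ℕ} {B : Fam n} (hB : IsBF r B) :
    ∀ X : Finset (Fin n), X.card = r → Q (info l r B) X → X ∉ B :=
  fun _ hX h => C1.Q_not_mem hB hX h

theorem sg_iff {n r l : ℕ} {B : Fam n} {X : Finset (Fin n)} :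
    X ∈ sg l r B ↔ X ∈ UU l r B ∧ ∀ Y, Rel (info l r B) X Y → Y = X := by
  classical
  unfold sg
  rw [Finset.mem_filter]

/-- two unknown singleton nonbases are not adjacent -/
theorem sg_stable {n r l : ℕ} {B : Fam n} (hB : IsBF r B) {X Y : Finset (Fin n)}
    (hX : X ∈ sg l r B) (hY : Y ∈ sg l r B) : ¬ Adj X Y := by
  intro hA
  obtain ⟨x1, x2⟩ := sg_iff.1 hX
  obtain ⟨y1, _⟩ := sg_iff.1 hY
  rw [D4.F3_mem_UU] at x1 y1
  have hnQ : ∀ Z, ¬ Kn (info l r B) Z → ¬ Q (info l r B) Z := fun Z hZ hq =>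
    hZ ⟨Z, hq, Relation.EqvGen.refl Z⟩
  have ht := adj_tie hB x1.1 y1.1 x1.2.1 y1.2.1 (hnQ X x1.2.2) (hnQ Y y1.2.2) hA
  have hYX : Y = X := x2 Y (Relation.EqvGen.rel _ _ ht)
  rw [hYX] at hA
  have := hA.1
  rw [Finset.sdiff_self, Finset.card_empty] at this
  exact zero_ne_one this

/-- A class of matroids whose unknown singleton nonbases outside of `V` are determined by the
information, and which have at most `K` nontrivial classes. -/
theorem count_V {n r l K : ℕ} (Bs : Finset (Fam n)) (hBs : Bs ⊆ BF n r) (V : Fam n)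
    (hdet : ∀ B ∈ Bs, ∀ B' ∈ Bs, info l r B = info l r B' →
      ∀ X, X ∉ V → X ∈ sg l r B → X ∈ sg l r B')
    (hK : ∀ B ∈ Bs, (nt l r B).card ≤ K) :
    Bs.card ≤ ((BF n r).image (info l r)).card * SB n K * (St V).card := by
  classical
  let T : Finset (Info n × Fam n × Fam n) :=
    ((BF n r).image (info l r)) ×ˢ ((univ : Finset (Fam n)).filter (fun S => S.card ≤ K)) ×ˢ
      (St V)
  have hT : T.card ≤ ((BF n r).image (info l r)).card * SB n K * (St V).card := by
    simp only [T, Finset.card_product]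
    rw [mul_assoc]
    exact Nat.mul_le_mul_left _ (Nat.mul_le_mul_right _ D4.F3_SB)
  refine le_trans ?_ hT
  refine Finset.card_le_card_of_injOn (fun B => (info l r B, nt l r B,
    (sg l r B).filter (fun X => X ∈ V))) ?_ ?_
  · intro B hB
    rw [Finset.mem_coe] at hB
    have hBF := mem_BF.1 (hBs hB)
    simp only [T, Finset.coe_product, Set.mem_prod, Finset.mem_coe, Finset.mem_filter,
      Finset.mem_univ, true_and]
    refine ⟨Finset.mem_image_of_mem _ (hBs hB), hK B hB, ?_⟩
    unfold St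
    rw [Finset.mem_filter, Finset.mem_powerset]
    refine ⟨fun X hX => (Finset.mem_filter.1 hX).2, fun X hX Y hY => ?_⟩
    exact sg_stable hBF (Finset.mem_filter.1 hX).1 (Finset.mem_filter.1 hY).1
  · intro B hB B' hB' heq
    rw [Finset.mem_coe] at hB hB'
    have hBF := mem_BF.1 (hBs hB)
    have hBF' := mem_BF.1 (hBs hB')
    have e1 : info l r B = info l r B' := congrArg Prod.fst heq
    have e2 : nt l r B = nt l r B' := congrArg (fun p => p.2.1) heq
    have e3 : (sg l r B).filter (fun X => X ∈ V) =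
        (sg l r B').filter (fun X => X ∈ V) := congrArg (fun p => p.2.2) heq
    have e5 : sg l r B = sg l r B' := by
      ext X
      by_cases hX : X ∈ V
      · have h1 : X ∈ (sg l r B).filter (fun X => X ∈ V) ↔
            X ∈ (sg l r B').filter (fun X => X ∈ V) := by rw [e3]
        rw [Finset.mem_filter, Finset.mem_filter] at h1
        simpa [hX] using h1
      · exact ⟨fun h => hdet B hB B' hB' e1 X hX h, fun h => hdet B' hB' B hB e1.symm X hX h⟩
    have e6 : UU l r B = UU l r B' := by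
      ext X
      rw [D4.F3_mem_UU_iff (bf_mem_tie hBF), D4.F3_mem_UU_iff (bf_mem_tie hBF'), e5, e2, e1]
    ext X
    rw [D4.F3_mem_B hBF (bf_Q hBF) (bf_mem_tie hBF), D4.F3_mem_B hBF' (bf_Q hBF')
      (bf_mem_tie hBF'), e6, e1]

/-- matroids with many nontrivial classes -/
theorem count_nt {n r l K : ℕ} :
    ((BF n r).filter (fun B => K ≤ (nt l r B).card)).card * 2 ^ K ≤
      ((BF n r).image (info l r)).card *
        (St (powersetCard r (univ : Finset (Fin n)))).card := by
  classical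
  have f1 := D2.F1 (n := n) (r := r) (l := l) (fun B hB => bf_Q (mem_BF.1 hB))
    (fun B hB => bf_mem_tie (mem_BF.1 hB))
    (fun B hB X Y h1 h2 h3 h4 h5 h6 h7 => adj_tie (mem_BF.1 hB) h1 h2 h3 h4 h5 h6 h7)
  refine le_trans ?_ f1
  rw [← smul_eq_mul, ← sum_const]
  calc ∑ B ∈ (BF n r).filter (fun B => K ≤ (nt l r B).card), 2 ^ K
      ≤ ∑ B ∈ (BF n r).filter (fun B => K ≤ (nt l r B).card), 2 ^ (nt l r B).card := by
        apply sum_le_sum
        intro B hB
        exact Nat.pow_le_pow_right (by norm_num) (mem_filter.1 hB).2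
    _ ≤ _ := sum_le_sum_of_subset (filter_subset _ _)

/-- all matroids of rank `r` -/
theorem count_all {n r l : ℕ} :
    (BF n r).card ≤ ((BF n r).image (info l r)).card *
        (St (powersetCard r (univ : Finset (Fin n)))).card := by
  have h := count_nt (n := n) (r := r) (l := l) (K := 0)
  simpa using h

/-- a small circuit: the unknown singleton nonbases miss at least two of its elements -/
theorem sg_circ {n r l : ℕ} {B : Fam n} {Γ : Finset (Fin n)}
    (hc : circ B Γ) (hl : Γ.card ≤ l) (h2 : 2 ≤ Γ.card) {X : Finset (Fin n)}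
    (hX : X ∈ sg l r B) : 2 ≤ (Γ \ X).card := by
  classical
  obtain ⟨x1, x2⟩ := sg_iff.1 hX
  rw [D4.F3_mem_UU] at x1
  have hΓ : Γ ∈ (info l r B).1 := by
    show Γ ∈ shortC l B
    unfold shortC
    rw [Finset.mem_filter]
    exact ⟨Finset.mem_univ _, hc, hl⟩
  by_contra hcon
  have h01 : (Γ \ X).card = 0 ∨ (Γ \ X).card = 1 := by omega
  rcases h01 with h0 | h1
  · apply x1.2.2
    refine ⟨X, Or.inl ⟨Γ, hΓ, ?_⟩, Relation.EqvGen.refl X⟩
    rw [← Finset.sdiff_eq_empty_iff_subset]
    exact Finset.card_eq_zero.1 h0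
  · obtain ⟨g, hg⟩ := Finset.card_eq_one.1 h1
    have hgm : g ∈ Γ ∧ g ∉ X := by
      have : g ∈ Γ \ X := by rw [hg]; simp
      simpa using this
    obtain ⟨f, hf, hfg⟩ := Finset.exists_mem_ne (by omega : 1 < Γ.card) g
    have hfX : f ∈ X := by
      by_contra hfX
      have : f ∈ Γ \ X := by simp [hf, hfX]
      rw [hg] at this
      exact hfg (by simpa using this)
    have hsub : Γ ⊆ insert g X := by
      intro x hx
      by_cases hxX : x ∈ X
      · simp [hxX]
      · have : x ∈ Γ \ X := by simp [hx, hxX]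
        rw [hg] at this
        have : x = g := by simpa using this
        simp [this]
    have ht : tie (info l r B) X (insert g (X.erase f)) :=
      ⟨f, hfX, g, hgm.2, rfl, Or.inl ⟨Γ, hΓ, hf, hgm.1, hsub⟩⟩
    have h3 := x2 _ (Relation.EqvGen.rel _ _ ht)
    apply hgm.2
    rw [← h3]
    simp

/-- the sets that miss at least two elements of `Γ` -/
def VC {n : ℕ} (r : ℕ) (Γ : Finset (Fin n)) : Fam n :=
  (powersetCard r (univ : Finset (Fin n))).filter (fun X => 2 ≤ (Γ \ X).card)

open Classical in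
theorem count_circ {n r l K : ℕ} (Γ : Finset (Fin n)) (hl : Γ.card ≤ l) (h2 : 2 ≤ Γ.card) :
    ((BF n r).filter (fun B => circ B Γ ∧ (nt l r B).card ≤ K)).card ≤
      ((BF n r).image (info l r)).card * SB n K * (St (VC r Γ)).card := by
  apply count_V _ (filter_subset _ _) (VC r Γ)
  · intro B hB B' hB' _ X hXV hX
    exfalso
    rw [mem_filter] at hB
    apply hXV
    unfold VC
    rw [mem_filter, mem_powersetCard]
    refine ⟨⟨subset_univ _, ?_⟩, sg_circ hB.2.1 hl h2 hX⟩
    exact (D4.F3_mem_UU.1 (sg_iff.1 hX).1).1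
  · intro B hB
    exact (mem_filter.1 hB).2.2

/-- the `r`-sets that meet `X` in at least `b` and at most `b + t` elements -/
def VW {n : ℕ} (r : ℕ) (X : Finset (Fin n)) (b t : ℕ) : Fam n :=
  (powersetCard r (univ : Finset (Fin n))).filter
    (fun Z => b ≤ (Z ∩ X).card ∧ (Z ∩ X).card ≤ b + t)

open Classical in
theorem count_win {n r l K : ℕ} (X : Finset (Fin n)) (b t : ℕ) :
    ((BF n r).filter (fun B => (∀ Z ∈ B, b ≤ (Z ∩ X).card ∧ (Z ∩ X).card ≤ b + t) ∧
      (nt l r B).card ≤ K)).card ≤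
      ((BF n r).image (info l r)).card * SB n K * (St (VW r X b t)).card := by
  apply count_V _ (filter_subset _ _) (VW r X b t)
  · intro B hB B' hB' hinfo Z hZV hZ
    rw [mem_filter] at hB hB'
    obtain ⟨h1, h2⟩ := sg_iff.1 hZ
    rw [D4.F3_mem_UU] at h1
    rw [sg_iff, D4.F3_mem_UU]
    refine ⟨⟨h1.1, ?_, ?_⟩, ?_⟩
    · intro hZB'
      apply hZV
      unfold VW
      rw [mem_filter, mem_powersetCard]
      exact ⟨⟨subset_univ _, h1.1⟩, hB'.2.1 Z hZB'⟩
    · rw [← hinfo]
      exact h1.2.2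
    · rw [← hinfo]
      exact h2
  · intro B hB
    exact (mem_filter.1 hB).2.2

end Pool.Agent.Y432.KC
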