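import Pool.Agent.Helper46.A.B1
import Pool.Agent.Y432.KC.K1

set_option autoImplicit false

namespace Pool.Agent.Y432.KC

open Finset Pool.Agent.Helper46.A

theorem mem_St {n : ℕ} {V R : Fam n} :
    R ∈ St V ↔ R ⊆ V ∧ ∀ X ∈ R, ∀ Y ∈ R, ¬ Adj X Y := by
  unfold St
  rw [Finset.mem_filter, Finset.mem_powerset]

/-- stable families of two separated domains can be joined -/
theorem St_mul {n : ℕ} (V V0 U : Fam n) (hV : V ⊆ U) (hV0 : V0 ⊆ U) (hdis : Disjoint V V0)
    (hsep : ∀ X ∈ V, ∀ Y ∈ V0, ¬ Adj X Y) :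
    (St V).card * (St V0).card ≤ (St U).card := by
  classical
  rw [← Finset.card_product]
  refine Finset.card_le_card_of_injOn (fun p => p.1 ∪ p.2) ?_ ?_
  · rintro ⟨R, R'⟩ hp
    rw [Finset.mem_coe, Finset.mem_product] at hp
    obtain ⟨h1, h2⟩ := hp
    simp only at h1 h2
    rw [mem_St] at h1 h2
    rw [Finset.mem_coe, mem_St]
    refine ⟨Finset.union_subset (h1.1.trans hV) (h2.1.trans hV0), ?_⟩
    intro X hX Y hY
    simp only at hX hY
    rw [Finset.mem_union] at hX hY
    rcases hX with hX | hX <;> rcases hY with hY | hY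
    · exact h1.2 X hX Y hY
    · exact hsep X (h1.1 hX) Y (h2.1 hY)
    · intro h
      exact hsep Y (h1.1 hY) X (h2.1 hX) ⟨h.2, h.1⟩
    · exact h2.2 X hX Y hY
  · rintro ⟨R, R'⟩ hp ⟨S, S'⟩ hq heq
    rw [Finset.mem_coe, Finset.mem_product] at hp hq
    simp only at hp hq heq
    have hp1 := (mem_St.1 hp.1).1
    have hp2 := (mem_St.1 hp.2).1
    have hq1 := (mem_St.1 hq.1).1
    have hq2 := (mem_St.1 hq.2).1
    have key : ∀ (R R' S S' : Fam n), R ⊆ V → R' ⊆ V0 → S ⊆ V → S' ⊆ V0 → R ∪ R' = S ∪ S' →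
        R ⊆ S ∧ R' ⊆ S' := by
      intro R R' S S' a1 a2 a3 a4 h
      constructor
      · intro X hX
        have : X ∈ S ∪ S' := h ▸ Finset.mem_union_left _ hX
        rcases Finset.mem_union.1 this with h' | h'
        · exact h'
        · exact absurd (a4 h') (Finset.disjoint_left.1 hdis (a1 hX))
      · intro X hX
        have : X ∈ S ∪ S' := h ▸ Finset.mem_union_right _ hX
        rcases Finset.mem_union.1 this with h' | h'
        · exact absurd (a2 hX) (Finset.disjoint_left.1 hdis (a3 h'))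
        · exact h'
    have k1 := key R R' S S' hp1 hp2 hq1 hq2 heq
    have k2 := key S S' R R' hq1 hq2 hp1 hp2 heq.symm
    rw [Prod.mk.injEq]
    exact ⟨Finset.Subset.antisymm k1.1 k2.1, Finset.Subset.antisymm k1.2 k2.2⟩

theorem ch_step {n r : ℕ} (hr : 1 ≤ r) (hrn : r ≤ n) (h : n ≤ 9 * r) :
    n.choose r ≤ 9 * (n - 1).choose (r - 1) := by
  obtain ⟨m, rfl⟩ : ∃ m, n = m + 1 := ⟨n - 1, by omega⟩
  obtain ⟨s, rfl⟩ : ∃ s, r = s + 1 := ⟨r - 1, by omega⟩
  simp only [Nat.add_sub_cancel]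
  have e1 : (m + 1) * m.choose s = (m + 1).choose (s + 1) * (s + 1) :=
    Nat.add_one_mul_choose_eq m s
  have h2 : (m + 1).choose (s + 1) * (s + 1) ≤ (9 * m.choose s) * (s + 1) := by
    rw [← e1]
    calc (m + 1) * m.choose s ≤ (9 * (s + 1)) * m.choose s := Nat.mul_le_mul_right _ h
      _ = _ := by ring
  exact Nat.le_of_mul_le_mul_right h2 (by omega)

theorem ch_down (g : ℕ) : ∀ n r : ℕ, n + 8 * g ≤ 9 * r → g ≤ r → r ≤ n →
    n.choose r ≤ 9 ^ g * (n - g).choose (r - g) := by
  induction g with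
  | zero => intro n r _ _ _; simp
  | succ g ih =>
    intro n r h hg hrn
    have h1 := ch_step (n := n) (r := r) (by omega) hrn (by omega)
    have h2 := ih (n - 1) (r - 1) (by omega) (by omega) (by omega)
    have e1 : n - 1 - g = n - (g + 1) := by omega
    have e2 : r - 1 - g = r - (g + 1) := by omega
    rw [e1, e2] at h2
    calc n.choose r ≤ 9 * (n - 1).choose (r - 1) := h1
      _ ≤ 9 * (9 ^ g * (n - (g + 1)).choose (r - (g + 1))) := Nat.mul_le_mul_left _ h2
      _ = _ := by rw [pow_succ]; ring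

theorem ch_up (t n r : ℕ) (h : n + 8 * t ≤ 9 * (n - r)) (ht : t ≤ n - r) (hrn : r ≤ n) :
    n.choose r ≤ 9 ^ t * (n - t).choose r := by
  have h1 := ch_down t n (n - r) h ht (by omega)
  rw [Nat.choose_symm hrn] at h1
  have e1 : n - r - t = (n - t) - r := by omega
  rw [e1, Nat.choose_symm (by omega)] at h1
  exact h1

theorem ch_both (t n r : ℕ) (h1 : n + 8 * t ≤ 9 * r) (h2 : n + 8 * t ≤ 9 * (n - r)) (hrn : r ≤ n) :
    n.choose r ≤ 9 ^ (2 * t) * (n - 2 * t).choose (r - t) := by
  have a1 := ch_down t n r h1 (by omega) hrn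
  have a2 := ch_up t (n - t) (r - t) (by omega) (by omega) (by omega)
  have e : n - t - t = n - 2 * t := by omega
  rw [e] at a2
  calc n.choose r ≤ 9 ^ t * (n - t).choose (r - t) := a1
    _ ≤ 9 ^ t * (9 ^ t * (n - 2 * t).choose (r - t)) := Nat.mul_le_mul_left _ a2
    _ = _ := by rw [two_mul, pow_add]; ring

/-- the sets that contain `Γ` -/
def VC0 {n : ℕ} (r : ℕ) (Γ : Finset (Fin n)) : Fam n :=
  (powersetCard r (univ : Finset (Fin n))).filter (fun X => Γ ⊆ X)

theorem VC0_card {n : ℕ} (r : ℕ) (Γ : Finset (Fin n)) (h : Γ.card ≤ r) :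
    (n - Γ.card).choose (r - Γ.card) ≤ (VC0 r Γ).card := by
  classical
  have h1 : (powersetCard (r - Γ.card) (univ \ Γ)).card = (n - Γ.card).choose (r - Γ.card) := by
    rw [card_powersetCard, card_univ_sdiff, Fintype.card_fin]
  rw [← h1]
  refine Finset.card_le_card_of_injOn (fun S => S ∪ Γ) ?_ ?_
  · intro S hS
    rw [mem_coe, mem_powersetCard] at hS
    rw [mem_coe, VC0, mem_filter, mem_powersetCard]
    refine ⟨⟨subset_univ _, ?_⟩, subset_union_right⟩
    rw [card_union_of_disjoint, hS.2]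
    · omega
    · exact Finset.disjoint_of_subset_left hS.1 sdiff_disjoint
  · intro S hS S' hS' heq
    rw [mem_coe, mem_powersetCard] at hS hS'
    have d1 : Disjoint S Γ := Finset.disjoint_of_subset_left hS.1 sdiff_disjoint
    have d2 : Disjoint S' Γ := Finset.disjoint_of_subset_left hS'.1 sdiff_disjoint
    simp only at heq
    rw [← Finset.union_sdiff_cancel_right d1, heq, Finset.union_sdiff_cancel_right d2]

theorem St_circ {n : ℕ} (hn : 0 < n) (r : ℕ) (Γ : Finset (Fin n)) (h : Γ.card ≤ r) :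
    ((St (VC r Γ)).card : ℝ) *
      (2 : ℝ) ^ ((((n - Γ.card).choose (r - Γ.card) : ℕ) : ℝ) / n) ≤
      ((St (powersetCard r (univ : Finset (Fin n)))).card : ℝ) := by
  classical
  have h1 := St_mul (VC r Γ) (VC0 r Γ) (powersetCard r (univ : Finset (Fin n)))
    (filter_subset _ _) (filter_subset _ _) (by
      rw [Finset.disjoint_left]
      intro X h1 h2
      rw [VC, mem_filter] at h1
      rw [VC0, mem_filter] at h2
      rw [Finset.sdiff_eq_empty_iff_subset.2 h2.2, card_empty] at h1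
      omega) (by
      intro X h1 Y h2 hA
      rw [VC, mem_filter] at h1
      rw [VC0, mem_filter] at h2
      have h3 : (Γ \ X).card ≤ (Y \ X).card := card_le_card (sdiff_subset_sdiff h2.2 le_rfl)
      have h4 := hA.2
      omega)
  have h2 := B1.st_lower hn (VC0 r Γ)
  have h3 : (2 : ℝ) ^ ((((n - Γ.card).choose (r - Γ.card) : ℕ) : ℝ) / n) ≤
      (2 : ℝ) ^ (((VC0 r Γ).card : ℝ) / n) := by
    apply Real.rpow_le_rpow_of_exponent_le (by norm_num)
    have hn0 : (0 : ℝ) < n := by exact_mod_cast hn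
    apply div_le_div_of_nonneg_right _ hn0.le
    exact_mod_cast VC0_card r Γ h
  calc _ ≤ ((St (VC r Γ)).card : ℝ) * ((St (VC0 r Γ)).card : ℝ) :=
        mul_le_mul_of_nonneg_left (h3.trans h2) (by positivity)
    _ ≤ _ := by exact_mod_cast h1

/-- the sets outside of the enlarged window -/
def VW0 {n : ℕ} (r : ℕ) (X : Finset (Fin n)) (b t : ℕ) : Fam n :=
  (powersetCard r (univ : Finset (Fin n))).filter
    (fun Z => ¬ (b ≤ (Z ∩ X).card + 1 ∧ (Z ∩ X).card ≤ b + t + 1))

theorem inter_step {n : ℕ} {X Z Z' : Finset (Fin n)} (h : (Z \ Z').card = 1) :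
    (Z ∩ X).card ≤ (Z' ∩ X).card + 1 := by
  classical
  have h1 : Z ∩ X ⊆ (Z' ∩ X) ∪ (Z \ Z') := by
    intro x hx
    rw [mem_inter] at hx
    rw [mem_union, mem_inter, mem_sdiff]
    by_cases hx' : x ∈ Z'
    · exact Or.inl ⟨hx', hx.2⟩
    · exact Or.inr ⟨hx.1, hx'⟩
  have h2 := (card_le_card h1).trans (card_union_le _ _)
  omega

theorem VW0_card {n : ℕ} (r : ℕ) (X : Finset (Fin n)) (b w t : ℕ) (ht : t = w + 3)
    (hX : t ≤ X.card) (hXc : t ≤ Xᶜ.card) (htr : t ≤ r) :
    (n - 2 * t).choose (r - t) ≤ (VW0 r X b w).card := by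
  classical
  obtain ⟨P, hPX, hP⟩ := Finset.exists_subset_card_eq hX
  obtain ⟨Q, hQX, hQ⟩ := Finset.exists_subset_card_eq hXc
  have hPQ : Disjoint P Q := by
    rw [Finset.disjoint_left]
    intro x h1 h2
    have := hQX h2
    rw [mem_compl] at this
    exact this (hPX h1)
  have hcard : (powersetCard (r - t) (univ \ (P ∪ Q))).card = (n - 2 * t).choose (r - t) := by
    rw [card_powersetCard, card_univ_sdiff, Fintype.card_fin, card_union_of_disjoint hPQ, hP, hQ]
    congr 1
    omega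
  rw [← hcard]
  have hmem : ∀ S ∈ powersetCard (r - t) (univ \ (P ∪ Q)), Disjoint S P ∧ Disjoint S Q ∧
      S.card = r - t := by
    intro S hS
    rw [mem_powersetCard] at hS
    have h1 : Disjoint S (P ∪ Q) := Finset.disjoint_of_subset_left hS.1 sdiff_disjoint
    rw [Finset.disjoint_union_right] at h1
    exact ⟨h1.1, h1.2, hS.2⟩
  have hone : ∀ S ∈ powersetCard (r - t) (univ \ (P ∪ Q)), S ∪ P ∈ VW0 r X b w ∨
      S ∪ Q ∈ VW0 r X b w := by
    intro S hS
    obtain ⟨h1, h2, h3⟩ := hmem S hS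
    have c1 : (S ∪ P).card = r := by rw [card_union_of_disjoint h1, h3, hP]; omega
    have c2 : (S ∪ Q).card = r := by rw [card_union_of_disjoint h2, h3, hQ]; omega
    have i1 : ((S ∪ P) ∩ X).card = (S ∩ X).card + t := by
      rw [Finset.union_inter_distrib_right, Finset.inter_eq_left.2 hPX, card_union_of_disjoint, hP]
      exact Finset.disjoint_of_subset_left inter_subset_left h1
    have i2 : ((S ∪ Q) ∩ X).card = (S ∩ X).card := by
      rw [Finset.union_inter_distrib_right]
      have : Q ∩ X = ∅ := by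
        rw [← Finset.disjoint_iff_inter_eq_empty, Finset.disjoint_left]
        intro x hx hx'
        exact (mem_compl.1 (hQX hx)) hx'
      rw [this, union_empty]
    by_contra hcon
    rw [not_or] at hcon
    obtain ⟨n1, n2⟩ := hcon
    rw [VW0, mem_filter, mem_powersetCard, i1] at n1
    rw [VW0, mem_filter, mem_powersetCard, i2] at n2
    have m1 : b ≤ (S ∩ X).card + t + 1 ∧ (S ∩ X).card + t ≤ b + w + 1 := by
      by_contra hh
      exact n1 ⟨⟨subset_univ _, c1⟩, hh⟩
    have m2 : b ≤ (S ∩ X).card + 1 ∧ (S ∩ X).card ≤ b + w + 1 := by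
      by_contra hh
      exact n2 ⟨⟨subset_univ _, c2⟩, hh⟩
    omega
  refine Finset.card_le_card_of_injOn
    (fun S => if S ∪ P ∈ VW0 r X b w then S ∪ P else S ∪ Q) ?_ ?_
  · intro S hS
    rw [mem_coe] at hS
    simp only [mem_coe]
    split_ifs with h
    · exact h
    · exact (hone S hS).resolve_left h
  · intro S hS S' hS' heq
    rw [mem_coe] at hS hS'
    have hrec : ∀ S ∈ powersetCard (r - t) (univ \ (P ∪ Q)),
        (if S ∪ P ∈ VW0 r X b w then S ∪ P else S ∪ Q) \ (P ∪ Q) = S := by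
      intro S hS
      obtain ⟨h1, h2, h3⟩ := hmem S hS
      ext x
      have g1 : x ∈ S → x ∉ P := fun h => Finset.disjoint_left.1 h1 h
      have g2 : x ∈ S → x ∉ Q := fun h => Finset.disjoint_left.1 h2 h
      split_ifs with h
      · simp only [mem_sdiff, mem_union, not_or]
        tauto
      · simp only [mem_sdiff, mem_union, not_or]
        tauto
    have := congrArg (fun T => T \ (P ∪ Q)) heq
    simp only at this
    rw [hrec S hS, hrec S' hS'] at this
    exact this

theorem St_win {n : ℕ} (hn : 0 < n) (r : ℕ) (X : Finset (Fin n)) (b w t : ℕ) (ht : t = w + 3)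
    (hX : t ≤ X.card) (hXc : t ≤ Xᶜ.card) (htr : t ≤ r) :
    ((St (VW r X b w)).card : ℝ) *
      (2 : ℝ) ^ ((((n - 2 * t).choose (r - t) : ℕ) : ℝ) / n) ≤
      ((St (powersetCard r (univ : Finset (Fin n)))).card : ℝ) := by
  classical
  have h1 := St_mul (VW r X b w) (VW0 r X b w) (powersetCard r (univ : Finset (Fin n)))
    (filter_subset _ _) (filter_subset _ _) (by
      rw [Finset.disjoint_left]
      intro Z h1 h2
      rw [VW, mem_filter] at h1
      rw [VW0, mem_filter] at h2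
      apply h2.2
      omega) (by
      intro Z h1 Z' h2 hA
      rw [VW, mem_filter] at h1
      rw [VW0, mem_filter] at h2
      have h3 := inter_step (X := X) hA.1
      have h4 := inter_step (X := X) hA.2
      apply h2.2
      omega)
  have h2 := B1.st_lower hn (VW0 r X b w)
  have h3 : (2 : ℝ) ^ ((((n - 2 * t).choose (r - t) : ℕ) : ℝ) / n) ≤
      (2 : ℝ) ^ (((VW0 r X b w).card : ℝ) / n) := by
    apply Real.rpow_le_rpow_of_exponent_le (by norm_num)
    have hn0 : (0 : ℝ) < n := by exact_mod_cast hn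
    apply div_le_div_of_nonneg_right _ hn0.le
    exact_mod_cast VW0_card r X b w t ht hX hXc htr
  calc _ ≤ ((St (VW r X b w)).card : ℝ) * ((St (VW0 r X b w)).card : ℝ) :=
        mul_le_mul_of_nonneg_left (h3.trans h2) (by positivity)
    _ ≤ _ := by exact_mod_cast h1

end Pool.Agent.Y432.KC
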