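import Pool.Agent.Helper46.A.E4
import Pool.Agent.Helper46.A.E1
import Pool.Agent.Helper46.A.E2

set_option autoImplicit false

namespace Pool.Agent.Y432.KC

open Finset Filter Pool.Agent.Helper46.AN

theorem ev_log4 : ∀ᶠ n : ℕ in atTop,
    1340 * Real.log n ≤ Real.log 2 * Real.sqrt (Real.sqrt n) := by
  have hL2 : 0 < Real.log 2 := Real.log_pos (by norm_num)
  have h := (isLittleO_log_rpow_atTop (r := 1 / 4) (by norm_num)).bound
    (c := Real.log 2 / 1340) (by positivity)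
  have h2 := (tendsto_natCast_atTop_atTop (R := ℝ)).eventually h
  filter_upwards [h2, eventually_ge_atTop 1] with n hn h1
  have h1' : (1 : ℝ) ≤ n := by exact_mod_cast h1
  have e : Real.sqrt (Real.sqrt (n : ℝ)) = (n : ℝ) ^ (1 / 4 : ℝ) := by
    rw [Real.sqrt_eq_rpow, Real.sqrt_eq_rpow, ← Real.rpow_mul (by linarith)]
    norm_num
  rw [Real.norm_of_nonneg (Real.log_nonneg h1'), Real.norm_of_nonneg (by positivity)] at hn
  rw [e]
  calc 1340 * Real.log n ≤ 1340 * (Real.log 2 / 1340 * (n : ℝ) ^ (1 / 4 : ℝ)) := by linarith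
    _ = _ := by ring

theorem num2d (htail : ∀ᶠ n : ℕ in atTop, (Fs n : ℝ) * (n : ℝ) ^ 3 ≤ (N0 n : ℝ))
    (hSB : ∀ n k : ℕ, 1 ≤ n → (SB n k : ℝ) ≤ (n : ℝ) ^ (4 * k) * Real.exp ((2 : ℝ) ^ n / (n : ℝ) ^ 4)) :
    ∀ᶠ n : ℕ in atTop, ((2 : ℝ) ^ (Fs n)) ^ 2 * ((SB n (2 * N0 n / (n / 8) ^ 2) : ℕ) : ℝ) ^ 2 *
      (SB n (Kn n) : ℝ) * (2 : ℝ) ^ (3 * (n ^ 2 + n + 2)) ≤
      (2 : ℝ) ^ ((N0 n : ℝ) / n / Real.sqrt (Real.sqrt n)) := by
  have hL2 : 0 < Real.log 2 := Real.log_pos (by norm_num)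
  have hL21 : Real.log 2 ≤ 1 := by
    have := Real.log_two_lt_d9
    linarith
  filter_upwards [htail, ev_log4, E4.ev_pow, eventually_ge_atTop 64] with n h1 h2 h3 h64
  have hn64 : (64 : ℝ) ≤ n := by exact_mod_cast h64
  have hn0 : (0 : ℝ) < n := by linarith
  have hlogn1 : 1 ≤ Real.log n := by
    rw [Real.le_log_iff_exp_le hn0]
    have := Real.exp_one_lt_d9
    linarith
  set r : ℝ := Real.sqrt n with hr
  have hr2 : r * r = n := Real.mul_self_sqrt hn0.le
  have hr0 : 0 < r := Real.sqrt_pos.mpr hn0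
  have hr8 : 8 ≤ r := by
    rw [hr]
    apply Real.le_sqrt_of_sq_le
    calc (8 : ℝ) ^ 2 = 64 := by norm_num
      _ ≤ n := hn64
  have hrn : r ≤ n := by nlinarith
  set Lg : ℝ := Real.log n with hLg
  set a : ℝ := (N0 n : ℝ) with ha
  have ha0 : 0 < a := lt_of_lt_of_le (by positivity) h3
  set bu : ℝ := a / n * (Lg / r) with hbu
  set E : ℝ := (2 : ℝ) ^ n / (n : ℝ) ^ 4 with hE
  -- the six bounds
  have b1 : (Fs n : ℝ) ≤ bu := by
    have e1 : (Fs n : ℝ) ≤ a / (n : ℝ) ^ 3 := by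
      rw [le_div_iff₀ (by positivity)]; exact h1
    refine e1.trans ?_
    rw [hbu, div_mul_div_comm, div_le_div_iff₀ (by positivity) (by positivity)]
    have e2 : (n : ℝ) * r ≤ Lg * (n : ℝ) ^ 3 := by
      calc (n : ℝ) * r ≤ n * n := mul_le_mul_of_nonneg_left hrn hn0.le
        _ ≤ 1 * (n : ℝ) ^ 3 := by nlinarith [mul_pos hn0 hn0]
        _ ≤ Lg * (n : ℝ) ^ 3 := mul_le_mul_of_nonneg_right hlogn1 (by positivity)
    calc a * ((n : ℝ) * r) ≤ a * (Lg * (n : ℝ) ^ 3) := mul_le_mul_of_nonneg_left e2 ha0.le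
      _ = a * Lg * (n : ℝ) ^ 3 := by ring
  have b2 : ((2 * N0 n / (n / 8) ^ 2 : ℕ) : ℝ) * Lg ≤ 162 * bu := by
    have e0 : ((2 * N0 n / (n / 8) ^ 2 : ℕ) : ℝ) ≤ (2 * a) / ((n / 8 : ℕ) : ℝ) ^ 2 := by
      have := @Nat.cast_div_le ℝ _ _ _ (2 * N0 n) ((n / 8) ^ 2)
      push_cast at this
      exact this
    have e1 : (n : ℝ) / 9 ≤ ((n / 8 : ℕ) : ℝ) := by
      have e2 : n ≤ 8 * (n / 8) + 7 := by omega
      have e3 : (n : ℝ) ≤ 8 * ((n / 8 : ℕ) : ℝ) + 7 := by exact_mod_cast e2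
      linarith
    have e2 : (2 * a) / ((n / 8 : ℕ) : ℝ) ^ 2 ≤ (2 * a) / ((n : ℝ) / 9) ^ 2 := by
      apply div_le_div_of_nonneg_left (by positivity) (by positivity)
      exact pow_le_pow_left₀ (by positivity) e1 2
    have e3 : (2 * a) / ((n : ℝ) / 9) ^ 2 = 162 * (a / n) / n := by field_simp; ring
    have e4 : ((2 * N0 n / (n / 8) ^ 2 : ℕ) : ℝ) ≤ 162 * (a / n) / n := by
      rw [← e3]; exact e0.trans e2
    calc ((2 * N0 n / (n / 8) ^ 2 : ℕ) : ℝ) * Lg ≤ (162 * (a / n) / n) * Lg :=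
          mul_le_mul_of_nonneg_right e4 (by linarith)
      _ = 162 * (a / n) * Lg / n := by ring
      _ ≤ 162 * (a / n) * Lg / r := by
          apply div_le_div_of_nonneg_left (by positivity) hr0 hrn
      _ = 162 * bu := by rw [hbu]; ring
  have b3 : (Kn n : ℝ) * Lg ≤ 2 * bu := by
    have e0 : (Kn n : ℝ) ≤ a / (n * (Nat.sqrt n : ℝ)) := by
      have := @Nat.cast_div_le ℝ _ _ _ (N0 n) (n * Nat.sqrt n)
      push_cast at this
      exact this
    have e1 : r / 2 ≤ (Nat.sqrt n : ℝ) := by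
      have e2 : n < (Nat.sqrt n + 1) * (Nat.sqrt n + 1) := Nat.lt_succ_sqrt n
      have e3 : (n : ℝ) < ((Nat.sqrt n : ℝ) + 1) * ((Nat.sqrt n : ℝ) + 1) := by exact_mod_cast e2
      have e4 : r < (Nat.sqrt n : ℝ) + 1 := by
        by_contra hc
        have hc' := not_lt.mp hc
        have : ((Nat.sqrt n : ℝ) + 1) * ((Nat.sqrt n : ℝ) + 1) ≤ r * r :=
          mul_self_le_mul_self (by positivity) hc'
        linarith
      linarith
    have e2 : a / (n * (Nat.sqrt n : ℝ)) ≤ a / (n * (r / 2)) := by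
      apply div_le_div_of_nonneg_left ha0.le (by positivity)
      exact mul_le_mul_of_nonneg_left e1 hn0.le
    calc (Kn n : ℝ) * Lg ≤ (a / (n * (r / 2))) * Lg :=
          mul_le_mul_of_nonneg_right (e0.trans e2) (by linarith)
      _ = 2 * bu := by rw [hbu]; field_simp
  have b4 : ((n ^ 2 + n + 2 : ℕ) : ℝ) * Lg ≤ 2 * bu := by
    have e1 : ((n ^ 2 + n + 2 : ℕ) : ℝ) ≤ 2 * (n : ℝ) ^ 2 := by
      push_cast
      nlinarith
    have e2 : (n : ℝ) ^ 2 ≤ a / n / r := by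
      rw [le_div_iff₀ hr0, le_div_iff₀ hn0]
      calc (n : ℝ) ^ 2 * r * n ≤ (n : ℝ) ^ 2 * n * n := by
            apply mul_le_mul_of_nonneg_right _ hn0.le
            exact mul_le_mul_of_nonneg_left hrn (by positivity)
        _ = (n : ℝ) ^ 4 := by ring
        _ ≤ a := h3
    calc ((n ^ 2 + n + 2 : ℕ) : ℝ) * Lg ≤ (2 * (a / n / r)) * Lg := by
          apply mul_le_mul_of_nonneg_right _ (by linarith)
          linarith
      _ = 2 * bu := by rw [hbu]; ring
  have hE0 : 0 ≤ E := by positivity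
  have b5 : E ≤ 2 * bu := by
    have e1 := E4.mid_bound n
    have e2 : (2 : ℝ) ^ n ≤ 2 * n * a := by
      refine e1.trans ?_
      apply mul_le_mul_of_nonneg_right _ ha0.le
      linarith
    rw [hE, hbu, div_mul_div_comm, ← mul_div_assoc, div_le_div_iff₀ (by positivity) (by positivity)]
    have e3 : (n : ℝ) * (n * r) ≤ Lg * (n : ℝ) ^ 4 := by
      calc (n : ℝ) * (n * r) ≤ n * (n * n) := by
            apply mul_le_mul_of_nonneg_left _ hn0.le
            exact mul_le_mul_of_nonneg_left hrn hn0.le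
        _ ≤ 1 * (n : ℝ) ^ 4 := by
            have : (n : ℝ) ^ 4 = n * (n * (n * n)) := by ring
            rw [this, one_mul]
            apply mul_le_mul_of_nonneg_left _ hn0.le
            apply mul_le_mul_of_nonneg_left _ hn0.le
            nlinarith
        _ ≤ Lg * (n : ℝ) ^ 4 := mul_le_mul_of_nonneg_right hlogn1 (by positivity)
    calc (2 : ℝ) ^ n * ((n : ℝ) * r) ≤ (2 * n * a) * ((n : ℝ) * r) :=
          mul_le_mul_of_nonneg_right e2 (by positivity)
      _ = 2 * a * ((n : ℝ) * (n * r)) := by ring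
      _ ≤ 2 * a * (Lg * (n : ℝ) ^ 4) := mul_le_mul_of_nonneg_left e3 (by positivity)
      _ = 2 * (a * Lg) * (n : ℝ) ^ 4 := by ring
  set s : ℝ := Real.sqrt r with hs
  have hs2 : s * s = r := Real.mul_self_sqrt hr0.le
  have hs0 : 0 < s := Real.sqrt_pos.mpr hr0
  have hu : 1340 * (Lg / r) ≤ Real.log 2 / s := by
    rw [mul_div_assoc', div_le_div_iff₀ hr0 hs0, ← hs2]
    calc 1340 * Lg * s ≤ (Real.log 2 * s) * s := mul_le_mul_of_nonneg_right h2 hs0.le
      _ = Real.log 2 * (s * s) := by ring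
  have hbu' : 1340 * bu ≤ a / n * (Real.log 2 / s) := by
    calc 1340 * bu = a / n * (1340 * (Lg / r)) := by rw [hbu]; ring
      _ ≤ _ := mul_le_mul_of_nonneg_left hu (by positivity)
  have hbu0 : 0 ≤ bu := by positivity
  -- exponent forms
  have hexp2 : ∀ k : ℕ, (2 : ℝ) ^ k = Real.exp (k * Real.log 2) := by
    intro k
    rw [mul_comm, Real.exp_mul, Real.exp_log (by norm_num), Real.rpow_natCast]
  have hS : ∀ k : ℕ, (SB n k : ℝ) ≤ Real.exp (4 * k * Lg + E) := by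
    intro k
    have e1 := hSB n k (by omega)
    have e2 : (n : ℝ) ^ (4 * k) = Real.exp (4 * k * Lg) := by
      have e3 : (4 : ℝ) * k * Lg = Lg * ((4 * k : ℕ) : ℝ) := by push_cast; ring
      rw [e3, Real.exp_mul, hLg, Real.exp_log hn0, Real.rpow_natCast]
    rw [Real.exp_add, ← e2]
    exact e1
  have hrhs : (2 : ℝ) ^ (a / n / s) = Real.exp (Real.log 2 * (a / n / s)) := by
    rw [Real.exp_mul, Real.exp_log (by norm_num)]
  set J : ℕ := 2 * N0 n / (n / 8) ^ 2 with hJ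
  set Q : ℕ := n ^ 2 + n + 2 with hQ
  rw [hrhs, hexp2 (Fs n), hexp2 (3 * Q)]
  have hsb0 : ∀ k : ℕ, (0 : ℝ) ≤ (SB n k : ℝ) := fun k => Nat.cast_nonneg _
  calc (Real.exp ((Fs n : ℝ) * Real.log 2)) ^ 2 * (SB n J : ℝ) ^ 2 * (SB n (Kn n) : ℝ) *
        Real.exp (((3 * Q : ℕ) : ℝ) * Real.log 2)
      ≤ (Real.exp ((Fs n : ℝ) * Real.log 2)) ^ 2 * (Real.exp (4 * J * Lg + E)) ^ 2 *
        (Real.exp (4 * (Kn n : ℕ) * Lg + E)) * Real.exp (((3 * Q : ℕ) : ℝ) * Real.log 2) := by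
        apply mul_le_mul_of_nonneg_right _ (Real.exp_pos _).le
        apply mul_le_mul _ (hS _) (hsb0 _) (by positivity)
        apply mul_le_mul_of_nonneg_left _ (by positivity)
        exact pow_le_pow_left₀ (hsb0 _) (hS _) 2
    _ = Real.exp (2 * ((Fs n : ℝ) * Real.log 2) + 2 * (4 * J * Lg + E) +
        (4 * (Kn n : ℕ) * Lg + E) + ((3 * Q : ℕ) : ℝ) * Real.log 2) := by
        rw [sq, sq]
        simp only [← Real.exp_add]
        congr 1
        ring
    _ ≤ Real.exp (Real.log 2 * (a / n / s)) := by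
        apply Real.exp_le_exp.mpr
        have c1 : (Fs n : ℝ) * Real.log 2 ≤ bu := by
          calc (Fs n : ℝ) * Real.log 2 ≤ (Fs n : ℝ) * 1 :=
                mul_le_mul_of_nonneg_left hL21 (Nat.cast_nonneg _)
            _ ≤ bu := by rw [mul_one]; exact b1
        have c2 : (Q : ℝ) * Real.log 2 ≤ 2 * bu := by
          refine le_trans ?_ b4
          exact mul_le_mul_of_nonneg_left (hL21.trans hlogn1) (Nat.cast_nonneg _)
        have c3 : ((3 * Q : ℕ) : ℝ) = 3 * (Q : ℝ) := by push_cast; ring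
        rw [c3]
        have c4 : a / n * (Real.log 2 / s) = Real.log 2 * (a / n / s) := by ring
        rw [← c4]
        linarith

end Pool.Agent.Y432.KC
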