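import Pool.Agent.Y432.KC.K2
import Pool.Agent.Y432.KC.K3
import Pool.Agent.Helper46.A.G3

set_option autoImplicit false

namespace Pool.Agent.Y432.KC

open Finset Filter Pool.Agent.Helper46.A Pool.Agent.Helper46

open Classical in
/-- base families of rank `r` that have a circuit with at least two and at most `k + 2`
elements, or whose members all meet some set `X` in a number of elements from a window of
length `k`, where `X` and its complement have at least `k + 3` elements -/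
noncomputable def badR (n r k : ℕ) : Finset (Fam n) :=
  (BF n r).filter (fun B => (∃ Γ : Finset (Fin n), 2 ≤ Γ.card ∧ Γ.card ≤ k + 2 ∧ circ B Γ) ∨
    (∃ (X : Finset (Fin n)) (b : ℕ), k + 3 ≤ X.card ∧ k + 3 ≤ Xᶜ.card ∧
      ∀ Z ∈ B, b ≤ (Z ∩ X).card ∧ (Z ∩ X).card ≤ b + k))

theorem big_n {n k : ℕ} (hk : (4 : ℝ) * 81 ^ (k + 3) ≤ Real.sqrt (Real.sqrt n)) :
    64 * (k + 3) ≤ n := by
  set s : ℝ := Real.sqrt (Real.sqrt n) with hs
  have h1 : s * s = Real.sqrt n := Real.mul_self_sqrt (Real.sqrt_nonneg _)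
  have h2 : Real.sqrt n * Real.sqrt n = n := Real.mul_self_sqrt (Nat.cast_nonneg _)
  have h3 : (1 : ℝ) + ((k + 3 : ℕ) : ℝ) * 80 ≤ (1 + 80) ^ (k + 3) :=
    one_add_mul_le_pow (by norm_num) _
  have h4 : ((k : ℝ) + 3) * 80 ≤ s := by
    have e : (1 + 80 : ℝ) = 81 := by norm_num
    rw [e] at h3
    push_cast at h3
    have : (0 : ℝ) ≤ k := Nat.cast_nonneg _
    nlinarith
  have hk0 : (0 : ℝ) ≤ k := Nat.cast_nonneg _
  have h5 : (80 : ℝ) ≤ s := by nlinarith
  have h6 : s ≤ (n : ℝ) / s := by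
    rw [le_div_iff₀ (by linarith), ← h2, h1]
    have : 1 ≤ Real.sqrt n := by rw [← h1]; nlinarith
    nlinarith [Real.sqrt_nonneg (n : ℝ)]
  have h7 : s * s ≤ n := by
    rw [le_div_iff₀ (by linarith)] at h6
    exact h6
  have h8 : (64 : ℝ) * (k + 3) ≤ n := by nlinarith
  exact_mod_cast h8

/-- the gain is large enough -/
theorem gain {n c C : ℕ} {q : ℝ} (hn : 0 < n) (hC : AN.N0 n ≤ 4 * c) (hc : (c : ℝ) ≤ q * C)
    (hq : 4 * q ≤ Real.sqrt (Real.sqrt n)) :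
    (AN.N0 n : ℝ) / n / Real.sqrt (Real.sqrt n) ≤ (C : ℝ) / n := by
  have hn0 : (0 : ℝ) < n := by exact_mod_cast hn
  have hs : 0 < Real.sqrt (Real.sqrt n) := Real.sqrt_pos.2 (Real.sqrt_pos.2 hn0)
  rw [div_right_comm, div_le_div_iff_of_pos_right hn0, div_le_iff₀ hs]
  have h1 : (AN.N0 n : ℝ) ≤ 4 * c := by exact_mod_cast hC
  have h2 : (0 : ℝ) ≤ C := Nat.cast_nonneg _
  calc (AN.N0 n : ℝ) ≤ 4 * (q * C) := by linarith
    _ = (4 * q) * C := by ring
    _ ≤ Real.sqrt (Real.sqrt n) * C := mul_le_mul_of_nonneg_right hq h2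
    _ = _ := by ring

/-- abstract form of the comparison -/
theorem cmp_aux {A I SBK V G S P E M : ℝ} (hA : A ≤ I * SBK * V) (hI : 0 ≤ I) (hSB : 0 ≤ SBK)
    (hV0 : 0 ≤ V) (hS0 : 0 ≤ S) (hE : 0 < E) (hP : 0 ≤ P) (hVG : V * G ≤ S) (hEG : E ≤ G)
    (hJ : I * SBK * P ≤ E) (hSM : S ≤ M) : A * P ≤ M := by
  have h1 : A * P * E ≤ S * E := by
    calc A * P * E ≤ (I * SBK * V) * P * E := by gcongr
      _ = (I * SBK * P) * (V * E) := by ring
      _ ≤ (I * SBK * P) * (V * G) := by gcongr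
      _ ≤ (I * SBK * P) * S := by gcongr
      _ ≤ E * S := mul_le_mul_of_nonneg_right hJ hS0
      _ = S * E := mul_comm _ _
  exact (le_of_mul_le_mul_right h1 hE).trans hSM

theorem rank_mid {n r k : ℕ} (hn : 100 ≤ n) (hw1 : n ≤ 8 * r) (hw2 : 8 * r ≤ 7 * n)
    (hC : AN.N0 n ≤ 4 * n.choose r) (hk : (4 : ℝ) * 81 ^ (k + 3) ≤ Real.sqrt (Real.sqrt n))
    (h1 : ((2 : ℝ) ^ (AN.Fs n)) ^ 2 * ((AN.SB n (2 * AN.N0 n / (n / 8) ^ 2) : ℕ) : ℝ) ^ 2 *
      (2 : ℝ) ^ (n ^ 2 + n + 2) ≤ 2 ^ (AN.Kn n))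
    (h2 : ((2 : ℝ) ^ (AN.Fs n)) ^ 2 * ((AN.SB n (2 * AN.N0 n / (n / 8) ^ 2) : ℕ) : ℝ) ^ 2 *
      (AN.SB n (AN.Kn n) : ℝ) * (2 : ℝ) ^ (3 * (n ^ 2 + n + 2)) ≤
      (2 : ℝ) ^ ((AN.N0 n : ℝ) / n / Real.sqrt (Real.sqrt n))) :
    ((badR n r k).card : ℝ) * 2 ^ (n ^ 2 + n + 2) ≤ 3 * mm n := by
  classical
  have hb := big_n hk
  have hI := C6.info_card (n := n) (l := n / 8) (by omega) r
    (fun s B hB => C4.relH_card hB)
  have hI' : (((BF n r).image (info (n / 8) r)).card : ℝ) ≤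
      ((2 : ℝ) ^ (AN.Fs n)) ^ 2 * ((AN.SB n (2 * AN.N0 n / (n / 8) ^ 2) : ℕ) : ℝ) ^ 2 := by
    exact_mod_cast hI
  have hS := st_le_mm (n := n) (r := r) (by omega) (by omega)
  set I : ℝ := (((BF n r).image (info (n / 8) r)).card : ℝ) with hIdef
  set J : ℝ := ((2 : ℝ) ^ (AN.Fs n)) ^ 2 * ((AN.SB n (2 * AN.N0 n / (n / 8) ^ 2) : ℕ) : ℝ) ^ 2
  set S : ℝ := ((St (powersetCard r (univ : Finset (Fin n)))).card : ℝ) with hSdef
  set K : ℕ := AN.Kn n with hKdef
  set Qn : ℕ := n ^ 2 + n + 2 with hQn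
  set E : ℝ := (2 : ℝ) ^ ((AN.N0 n : ℝ) / n / Real.sqrt (Real.sqrt n)) with hEdef
  have hE0 : 0 < E := by positivity
  have hI0 : 0 ≤ I := by positivity
  have hS0 : 0 ≤ S := by positivity
  have hmm0 : 0 ≤ mm n := hS0.trans hS
  have hsbeq : (SB n K : ℝ) = (AN.SB n K : ℝ) := rfl
  have hJ : I * (SB n K : ℝ) * (2 : ℝ) ^ (3 * Qn) ≤ E := by
    rw [hsbeq]
    refine le_trans ?_ h2
    gcongr
  -- the first part
  set A1 := (BF n r).filter (fun B => K ≤ (nt (n / 8) r B).card) with hA1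
  have t1 : (A1.card : ℝ) * 2 ^ Qn ≤ mm n := by
    have e0 := count_nt (n := n) (r := r) (l := n / 8) (K := K)
    have e1 : (A1.card : ℝ) * 2 ^ K ≤ I * S := by
      rw [hIdef, hSdef]
      exact_mod_cast e0
    have e2 : I * 2 ^ Qn ≤ 2 ^ K := le_trans (mul_le_mul_of_nonneg_right hI' (by positivity)) h1
    have e3 : (A1.card : ℝ) * 2 ^ Qn * 2 ^ K ≤ S * 2 ^ K := by
      calc (A1.card : ℝ) * 2 ^ Qn * 2 ^ K = ((A1.card : ℝ) * 2 ^ K) * 2 ^ Qn := by ring
        _ ≤ (I * S) * 2 ^ Qn := mul_le_mul_of_nonneg_right e1 (by positivity)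
        _ = S * (I * 2 ^ Qn) := by ring
        _ ≤ S * 2 ^ K := mul_le_mul_of_nonneg_left e2 hS0
    exact (le_of_mul_le_mul_right e3 (by positivity)).trans hS
  -- the second part
  set A2 : Finset (Fin n) → Finset (Fam n) := fun Γ =>
    if 2 ≤ Γ.card ∧ Γ.card ≤ k + 2 then
    (BF n r).filter (fun B => circ B Γ ∧ (nt (n / 8) r B).card ≤ K) else ∅ with hA2
  have t2 : ∀ Γ, ((A2 Γ).card : ℝ) * 2 ^ (3 * Qn) ≤ mm n := by
    intro Γ
    simp only [hA2]
    split_ifs with hΓ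
    · have e0 := count_circ (n := n) (r := r) (l := n / 8) (K := K) Γ (by omega) hΓ.1
      have e1 := St_circ (n := n) (by omega) r Γ (by omega)
      have e2 := ch_down Γ.card n r (by omega) (by omega) (by omega)
      refine cmp_aux (by rw [hIdef]; exact_mod_cast e0) hI0 (Nat.cast_nonneg _) (Nat.cast_nonneg _) hS0 hE0
        (by positivity) e1 ?_ hJ hS
      apply Real.rpow_le_rpow_of_exponent_le (by norm_num)
      refine gain (by omega) hC (q := 9 ^ Γ.card) (by exact_mod_cast e2) ?_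
      refine le_trans ?_ hk
      have e3 : (9 : ℝ) ^ Γ.card ≤ 81 ^ (k + 3) := by
        calc (9 : ℝ) ^ Γ.card ≤ 9 ^ (k + 3) := pow_le_pow_right₀ (by norm_num) (by omega)
          _ ≤ 81 ^ (k + 3) := pow_le_pow_left₀ (by norm_num) (by norm_num) _
      linarith
    · simp [hmm0]
  -- the third part
  set A3 : Finset (Fin n) × ℕ → Finset (Fam n) := fun p =>
    if k + 3 ≤ p.1.card ∧ k + 3 ≤ p.1ᶜ.card then
    (BF n r).filter (fun B => (∀ Z ∈ B, p.2 ≤ (Z ∩ p.1).card ∧ (Z ∩ p.1).card ≤ p.2 + k) ∧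
      (nt (n / 8) r B).card ≤ K) else ∅ with hA3
  have t3 : ∀ p, ((A3 p).card : ℝ) * 2 ^ (3 * Qn) ≤ mm n := by
    intro p
    simp only [hA3]
    split_ifs with hp
    · have e0 := count_win (n := n) (r := r) (l := n / 8) (K := K) p.1 p.2 k
      have e1 := St_win (n := n) (by omega) r p.1 p.2 k (k + 3) rfl hp.1 hp.2 (by omega)
      have e2 := ch_both (k + 3) n r (by omega) (by omega) (by omega)
      refine cmp_aux (by rw [hIdef]; exact_mod_cast e0) hI0 (Nat.cast_nonneg _) (Nat.cast_nonneg _) hS0 hE0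
        (by positivity) e1 ?_ hJ hS
      apply Real.rpow_le_rpow_of_exponent_le (by norm_num)
      refine gain (by omega) hC (q := 9 ^ (2 * (k + 3))) (by exact_mod_cast e2) ?_
      refine le_trans (le_of_eq ?_) hk
      rw [pow_mul]
      norm_num
    · simp [hmm0]
  have hcov : badR n r k ⊆ A1 ∪ ((univ : Finset (Finset (Fin n))).biUnion A2 ∪
      ((univ : Finset (Finset (Fin n))) ×ˢ range (n + 1)).biUnion A3) := by
    intro B hB
    unfold badR at hB
    rw [mem_filter] at hB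
    obtain ⟨hBF, hB⟩ := hB
    by_cases hK : K ≤ (nt (n / 8) r B).card
    · exact mem_union_left _ (mem_filter.2 ⟨hBF, hK⟩)
    · apply mem_union_right
      rcases hB with ⟨Γ, g1, g2, g3⟩ | ⟨X, b, x1, x2, x3⟩
      · apply mem_union_left
        rw [mem_biUnion]
        refine ⟨Γ, mem_univ _, ?_⟩
        simp only [hA2]
        rw [if_pos ⟨g1, g2⟩, mem_filter]
        exact ⟨hBF, g3, by omega⟩
      · apply mem_union_right
        rw [mem_biUnion]
        obtain ⟨Z, hZ⟩ := (mem_BF.1 hBF).ne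
        have hb1 := (x3 Z hZ).1
        have hb2 : (Z ∩ X).card ≤ n := by
          have := card_le_univ (Z ∩ X)
          rwa [Fintype.card_fin] at this
        refine ⟨(X, b), mem_product.2 ⟨mem_univ _, mem_range.2 (by omega)⟩, ?_⟩
        simp only [hA3]
        rw [if_pos ⟨x1, x2⟩, mem_filter]
        exact ⟨hBF, x3, by omega⟩
  have hcard : ((badR n r k).card : ℝ) ≤ A1.card + (∑ Γ : Finset (Fin n), ((A2 Γ).card : ℝ) +
      ∑ p ∈ ((univ : Finset (Finset (Fin n))) ×ˢ range (n + 1)), ((A3 p).card : ℝ)) := by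
    have g1 := card_le_card hcov
    have g2 := card_union_le A1 ((univ : Finset (Finset (Fin n))).biUnion A2 ∪
      ((univ : Finset (Finset (Fin n))) ×ˢ range (n + 1)).biUnion A3)
    have g3 := card_union_le ((univ : Finset (Finset (Fin n))).biUnion A2)
      (((univ : Finset (Finset (Fin n))) ×ˢ range (n + 1)).biUnion A3)
    have g4 := card_biUnion_le (s := (univ : Finset (Finset (Fin n)))) (t := A2)
    have g5 := card_biUnion_le (s := ((univ : Finset (Finset (Fin n))) ×ˢ range (n + 1))) (t := A3)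
    have : (badR n r k).card ≤ A1.card + (∑ Γ : Finset (Fin n), (A2 Γ).card +
      ∑ p ∈ ((univ : Finset (Finset (Fin n))) ×ˢ range (n + 1)), (A3 p).card) := by omega
    exact_mod_cast this
  have hs2 : (∑ Γ : Finset (Fin n), ((A2 Γ).card : ℝ)) * 2 ^ (3 * Qn) ≤ 2 ^ n * mm n := by
    rw [sum_mul]
    calc ∑ Γ : Finset (Fin n), ((A2 Γ).card : ℝ) * 2 ^ (3 * Qn) ≤
        ∑ Γ : Finset (Fin n), mm n := sum_le_sum fun Γ _ => t2 Γ
      _ = _ := by
        rw [sum_const, card_univ, Fintype.card_finset, Fintype.card_fin, nsmul_eq_mul]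
        push_cast
        ring
  have hs3 : (∑ p ∈ ((univ : Finset (Finset (Fin n))) ×ˢ range (n + 1)), ((A3 p).card : ℝ)) *
      2 ^ (3 * Qn) ≤ 2 ^ n * (n + 1) * mm n := by
    rw [sum_mul]
    calc ∑ p ∈ ((univ : Finset (Finset (Fin n))) ×ˢ range (n + 1)),
          ((A3 p).card : ℝ) * 2 ^ (3 * Qn) ≤
        ∑ p ∈ ((univ : Finset (Finset (Fin n))) ×ˢ range (n + 1)), mm n :=
          sum_le_sum fun p _ => t3 p
      _ = _ := by
        rw [sum_const, card_product, card_univ, Fintype.card_finset, Fintype.card_fin,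
          card_range, nsmul_eq_mul]
        push_cast
        ring
  have hn1 : ((n : ℝ) + 1) ≤ 2 ^ n := by
    have : n + 1 ≤ 2 ^ n := Nat.lt_two_pow_self
    exact_mod_cast this
  have hp3 : (2 : ℝ) ^ (3 * Qn) = 2 ^ Qn * 2 ^ (2 * Qn) := by
    rw [← pow_add]
    congr 1
    ring
  have hbig1 : (2 : ℝ) ^ n ≤ 2 ^ (2 * Qn) := by
    apply pow_le_pow_right₀ (by norm_num)
    rw [hQn]
    nlinarith
  have hbig2 : (2 : ℝ) ^ n * (n + 1) ≤ 2 ^ (2 * Qn) := by
    calc (2 : ℝ) ^ n * (n + 1) ≤ 2 ^ n * 2 ^ n := mul_le_mul_of_nonneg_left hn1 (by positivity)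
      _ = 2 ^ (2 * n) := by rw [← pow_add]; congr 1; ring
      _ ≤ _ := by
        apply pow_le_pow_right₀ (by norm_num)
        rw [hQn]
        nlinarith
  have u2 : (∑ Γ : Finset (Fin n), ((A2 Γ).card : ℝ)) * 2 ^ Qn ≤ mm n := by
    have h : (∑ Γ : Finset (Fin n), ((A2 Γ).card : ℝ)) * 2 ^ Qn * 2 ^ (2 * Qn) ≤
        mm n * 2 ^ (2 * Qn) := by
      rw [mul_assoc, ← hp3]
      refine hs2.trans ?_
      rw [mul_comm]
      exact mul_le_mul_of_nonneg_left hbig1 hmm0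
    exact le_of_mul_le_mul_right h (by positivity)
  have u3 : (∑ p ∈ ((univ : Finset (Finset (Fin n))) ×ˢ range (n + 1)), ((A3 p).card : ℝ)) *
      2 ^ Qn ≤ mm n := by
    have h : (∑ p ∈ ((univ : Finset (Finset (Fin n))) ×ˢ range (n + 1)), ((A3 p).card : ℝ)) *
        2 ^ Qn * 2 ^ (2 * Qn) ≤ mm n * 2 ^ (2 * Qn) := by
      rw [mul_assoc, ← hp3]
      refine hs3.trans ?_
      rw [mul_comm]
      exact mul_le_mul_of_nonneg_left hbig2 hmm0
    exact le_of_mul_le_mul_right h (by positivity)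
  have hfin := mul_le_mul_of_nonneg_right hcard (by positivity : (0 : ℝ) ≤ 2 ^ Qn)
  rw [add_mul, add_mul] at hfin
  linarith

end Pool.Agent.Y432.KC
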