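import Pool.Agent.Y432.KC.K4

set_option autoImplicit false

namespace Pool.Agent.Y432.KC

open Finset Filter Pool.Agent.Helper46.A Pool.Agent.Helper46

theorem badR_le (n r k : ℕ) : (badR n r k).card ≤ (BF n r).card := by
  classical
  unfold badR
  exact card_le_card (filter_subset _ _)

theorem badR_pow_le (n r k : ℕ) : ((badR n r k).card : ℝ) ≤ 2 ^ (n.choose r) := by
  exact_mod_cast (badR_le n r k).trans (BF_card_le n r)

/-- few stable families at all -/
theorem low_st : ∀ᶠ n : ℕ in atTop, ∀ r : ℕ, n ≤ 8 * r → 8 * r ≤ 7 * n →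
    4 * n.choose r < n.choose (n / 2) →
    ((St (powersetCard r (univ : Finset (Fin n)))).card : ℝ) ≤
      (2 : ℝ) ^ ((3 : ℝ) / 5 * ((AN.N0 n : ℝ) / n)) := by
  filter_upwards [E7.upper, eventually_ge_atTop 100] with n hup hn r h1 h2 hC
  have hrows := A3.super_rows (n := n) univ r (by omega)
    (by rw [card_univ, Fintype.card_fin]; omega)
  have hcols := A4.super_cols (n := n) univ r (by rw [card_univ, Fintype.card_fin]; omega)
  exact hup r h1 h2 hC (fun a θ ha hθ V h lam hl => kwU a θ ha hθ V h lam hl)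
    (fun A hA hc => by
      have := hrows (1 / 10) (by norm_num) A hA (by rw [card_univ, Fintype.card_fin]; exact hc)
      rw [card_univ, Fintype.card_fin] at this
      exact this)
    (fun A hA hc => by
      have := hcols (1 / 10) (by norm_num)
        (fun j hj1 hj2 A hA hc => A3.super_rows univ j hj1 hj2 (1 / 10) (by norm_num) A hA hc)
        A hA (by rw [card_univ, Fintype.card_fin]; exact hc)
      rw [card_univ, Fintype.card_fin] at this
      exact this)

theorem total : ∀ᶠ n : ℕ in atTop, ∀ k : ℕ,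
    (4 : ℝ) * 81 ^ (k + 3) ≤ Real.sqrt (Real.sqrt n) →
    (∑ r ∈ range (n + 1), ((badR n r k).card : ℝ)) * 2 ^ (n ^ 2) ≤ mm n := by
  have hSB : ∀ n k : ℕ, 1 ≤ n → (AN.SB n k : ℝ) ≤ (n : ℝ) ^ (4 * k) *
      Real.exp ((2 : ℝ) ^ n / (n : ℝ) ^ 4) := fun n k hn => AN.E2.SB_le n k hn
  filter_upwards [AN.E3.num1 AN.E1.tail hSB, num2d AN.E1.tail hSB, AN.E5.num3 AN.E1.tail,
    low_st, eventually_ge_atTop 10000] with n h1 h2 h3 hlow hn k hk
  have hmm := mm_lower (n := n) (by omega)
  have hmm0 : 0 ≤ mm n := le_trans (by positivity) hmm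
  have hn0 : (0 : ℝ) < n := by exact_mod_cast (by omega : 0 < n)
  have hn' : (10000 : ℝ) ≤ n := by exact_mod_cast hn
  have key : ∀ r ∈ range (n + 1), ((badR n r k).card : ℝ) * 2 ^ (n ^ 2 + n + 2) ≤ 3 * mm n := by
    intro r hr
    rw [mem_range] at hr
    by_cases hw : n ≤ 8 * r ∧ 8 * r ≤ 7 * n
    · obtain ⟨hw1, hw2⟩ := hw
      by_cases hC : AN.N0 n ≤ 4 * n.choose r
      · exact rank_mid (by omega) hw1 hw2 hC hk h1 h2
      · push Not at hC
        have hS := hlow r hw1 hw2 hC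
        have hI := C6.info_card (n := n) (l := n / 8) (by omega) r
          (fun s B hB => C4.relH_card hB)
        have hI' : (((BF n r).image (info (n / 8) r)).card : ℝ) ≤
            ((2 : ℝ) ^ (AN.Fs n)) ^ 2 *
              ((AN.SB n (2 * AN.N0 n / (n / 8) ^ 2) : ℕ) : ℝ) ^ 2 := by
          exact_mod_cast hI
        have hall := count_all (n := n) (r := r) (l := n / 8)
        have hall' : ((BF n r).card : ℝ) ≤ (((BF n r).image (info (n / 8) r)).card : ℝ) *
            ((St (powersetCard r (univ : Finset (Fin n)))).card : ℝ) := by exact_mod_cast hall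
        set I : ℝ := (((BF n r).image (info (n / 8) r)).card : ℝ) with hIdef
        set J : ℝ := ((2 : ℝ) ^ (AN.Fs n)) ^ 2 *
          ((AN.SB n (2 * AN.N0 n / (n / 8) ^ 2) : ℕ) : ℝ) ^ 2
        set S : ℝ := ((St (powersetCard r (univ : Finset (Fin n)))).card : ℝ) with hSdef
        set Qn : ℕ := n ^ 2 + n + 2 with hQn
        have hI0 : 0 ≤ I := by positivity
        have hJ0 : 0 ≤ J := by positivity
        have hsb : (1 : ℝ) ≤ (AN.SB n (AN.Kn n) : ℝ) := by
          have : 1 ≤ AN.SB n (AN.Kn n) := by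
            unfold AN.SB
            calc 1 = (2 ^ n).choose 0 := by simp
              _ ≤ _ := single_le_sum (f := fun j => (2 ^ n).choose j) (fun _ _ => Nat.zero_le _)
                (mem_range.2 (Nat.succ_pos _))
          exact_mod_cast this
        have hs10 : (10 : ℝ) ≤ Real.sqrt (Real.sqrt n) := by
          apply Real.le_sqrt_of_sq_le
          apply Real.le_sqrt_of_sq_le
          norm_num
          exact hn
        have e1 : J * 2 ^ Qn ≤ (2 : ℝ) ^ ((1 : ℝ) / 10 * ((AN.N0 n : ℝ) / n)) := by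
          have e2 : J * 2 ^ Qn ≤ J * (AN.SB n (AN.Kn n) : ℝ) * (2 : ℝ) ^ (3 * Qn) := by
            have e3 : (2 : ℝ) ^ Qn ≤ 2 ^ (3 * Qn) := pow_le_pow_right₀ (by norm_num) (by omega)
            calc J * 2 ^ Qn = J * 1 * 2 ^ Qn := by ring
              _ ≤ _ := by gcongr
          refine e2.trans (h2.trans ?_)
          apply Real.rpow_le_rpow_of_exponent_le (by norm_num)
          rw [div_le_iff₀ (by linarith)]
          have : (0 : ℝ) ≤ (AN.N0 n : ℝ) / n := by positivity
          nlinarith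
        have e4 : ((badR n r k).card : ℝ) * 2 ^ Qn ≤ mm n := by
          calc ((badR n r k).card : ℝ) * 2 ^ Qn ≤ ((BF n r).card : ℝ) * 2 ^ Qn := by
                apply mul_le_mul_of_nonneg_right _ (by positivity)
                exact_mod_cast badR_le n r k
            _ ≤ (I * S) * 2 ^ Qn := mul_le_mul_of_nonneg_right hall' (by positivity)
            _ ≤ (J * (2 : ℝ) ^ ((3 : ℝ) / 5 * ((AN.N0 n : ℝ) / n))) * 2 ^ Qn := by gcongr
            _ = (J * 2 ^ Qn) * (2 : ℝ) ^ ((3 : ℝ) / 5 * ((AN.N0 n : ℝ) / n)) := by ring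
            _ ≤ (2 : ℝ) ^ ((1 : ℝ) / 10 * ((AN.N0 n : ℝ) / n)) *
                (2 : ℝ) ^ ((3 : ℝ) / 5 * ((AN.N0 n : ℝ) / n)) := by gcongr
            _ = (2 : ℝ) ^ ((1 : ℝ) / 10 * ((AN.N0 n : ℝ) / n) +
                (3 : ℝ) / 5 * ((AN.N0 n : ℝ) / n)) := by
                rw [Real.rpow_add (by norm_num)]
            _ ≤ (2 : ℝ) ^ ((AN.N0 n : ℝ) / n) := by
                apply Real.rpow_le_rpow_of_exponent_le (by norm_num)
                have : (0 : ℝ) ≤ (AN.N0 n : ℝ) / n := by positivity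
                linarith
            _ ≤ mm n := hmm
        linarith
    · have hc := choose_le_Fs (by omega) hw
      have e1 : ((badR n r k).card : ℝ) ≤ 2 ^ (AN.Fs n) :=
        (badR_pow_le n r k).trans (pow_le_pow_right₀ (by norm_num) hc)
      have e2 : ((badR n r k).card : ℝ) * 2 ^ (n ^ 2 + n + 2) ≤ mm n := by
        calc ((badR n r k).card : ℝ) * 2 ^ (n ^ 2 + n + 2) ≤ 2 ^ (AN.Fs n) * 2 ^ (n ^ 2 + n + 2) :=
            mul_le_mul_of_nonneg_right e1 (by positivity)
          _ ≤ _ := h3.1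
          _ ≤ _ := hmm
      linarith
  have hn1 : ((n : ℝ) + 1) ≤ 2 ^ n := by
    have : n + 1 ≤ 2 ^ n := Nat.lt_two_pow_self
    exact_mod_cast this
  have hp : (2 : ℝ) ^ (n ^ 2 + n + 2) = 2 ^ (n ^ 2) * (4 * 2 ^ n) := by
    rw [add_assoc, pow_add, pow_add]
    norm_num
    ring
  have hsum : (∑ r ∈ range (n + 1), ((badR n r k).card : ℝ)) * 2 ^ (n ^ 2 + n + 2) ≤
      (n + 1) * (3 * mm n) := by
    rw [sum_mul]
    calc ∑ r ∈ range (n + 1), ((badR n r k).card : ℝ) * 2 ^ (n ^ 2 + n + 2)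
        ≤ ∑ r ∈ range (n + 1), 3 * mm n := sum_le_sum key
      _ = (n + 1) * (3 * mm n) := by rw [sum_const, card_range, nsmul_eq_mul]; push_cast; ring
  have h4 : (∑ r ∈ range (n + 1), ((badR n r k).card : ℝ)) * 2 ^ (n ^ 2) * (4 * 2 ^ n) ≤
      mm n * (4 * 2 ^ n) := by
    rw [mul_assoc, ← hp]
    refine hsum.trans ?_
    nlinarith
  exact le_of_mul_le_mul_right h4 (by positivity)

end Pool.Agent.Y432.KC
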