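import Pool.Agent.Y432.KC.K5
import Pool.Agent.Y432.KC.Defs
import Pool.Agent.Helper46.A.F

set_option autoImplicit false

namespace Pool.Agent.Y432.KC

open Finset Pool.Agent.Helper46.A Pool.Agent.Helper46
open Pool.Agent.Helper46.A.F (bs_22726 mem_bs_22726 bs_isBF_22726 bs_inj_22726)

theorem indep_bs {n : ℕ} (M : Matroid (Fin n)) (S : Finset (Fin n)) :
    indep (bs_22726 M) S ↔ M.Indep (S : Set (Fin n)) := by
  unfold indep
  rw [Matroid.indep_iff]
  constructor
  · rintro ⟨X, hX, hS⟩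
    exact ⟨X, (mem_bs_22726 M X).1 hX, by exact_mod_cast hS⟩
  · rintro ⟨B, hB, hS⟩
    lift B to Finset (Fin n) using B.toFinite
    exact ⟨B, (mem_bs_22726 M B).2 hB, by exact_mod_cast hS⟩

theorem circ_bs {n : ℕ} (M : Matroid (Fin n)) (hE : M.E = Set.univ) (C : Finset (Fin n))
    (hC : M.IsCircuit (C : Set (Fin n))) : circ (bs_22726 M) C := by
  unfold circ
  rw [indep_bs]
  refine ⟨hC.not_indep, fun x hx => ?_⟩
  rw [indep_bs]
  have := hC.sdiff_singleton_indep (by exact_mod_cast hx : x ∈ (C : Set (Fin n)))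
  rw [Finset.coe_erase]
  exact this

/-- a side with few elements contains a small circuit or a small cocircuit -/
theorem small_side {n k j : ℕ} (M : Matroid (Fin n)) (hE : M.E = Set.univ)
    (X Y : Set (Fin n)) (hY : Y = Xᶜ) (hj : (j : ℕ∞) ≤ X.encard)
    (hr : M.eRk X + M.eRk Y + 1 ≤ M.eRank + j) (hs : X.encard ≤ ((k + 2 : ℕ) : ℕ∞)) :
    (∃ C : Finset (Fin n), M.IsCircuit (C : Set (Fin n)) ∧ C.card ≤ k + 2) ∨
    (∃ C : Finset (Fin n), M✶.IsCircuit (C : Set (Fin n)) ∧ C.card ≤ k + 2) := by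
  have hfin : ∀ C : Set (Fin n), C ⊆ X → ∃ D : Finset (Fin n), (D : Set (Fin n)) = C ∧
      D.card ≤ k + 2 := by
    intro C hC
    lift C to Finset (Fin n) using C.toFinite
    refine ⟨C, rfl, ?_⟩
    have h1 := (Set.encard_le_encard hC).trans hs
    rw [Set.encard_coe_eq_coe_finsetCard] at h1
    exact_mod_cast h1
  by_cases hi : M.Indep X
  · by_cases hc : M✶.Indep X
    · exfalso
      have h1 := hi.eRk_eq_encard
      have hc' : M.Coindep X := hc
      have h2 := hc'.compl_spanning.eRk_eq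
      rw [hE, ← Set.compl_eq_univ_sdiff, ← hY] at h2
      rw [h1, h2] at hr
      have h3 : X.encard + M.eRank + 1 ≤ M.eRank + X.encard := hr.trans (by gcongr)
      have h4 : M.eRank ≠ ⊤ := (Matroid.eRank_ne_top_iff M).2 inferInstance
      have h5 : X.encard ≠ ⊤ := Set.encard_ne_top_iff.2 X.toFinite
      obtain ⟨a, ha⟩ := ENat.ne_top_iff_exists.1 h4
      obtain ⟨b, hb⟩ := ENat.ne_top_iff_exists.1 h5
      rw [← ha, ← hb] at h3
      have h6 : b + a + 1 ≤ a + b := by exact_mod_cast h3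
      omega
    · right
      have hd : M✶.Dep X := (Matroid.not_indep_iff (by rw [Matroid.dual_ground, hE]; exact Set.subset_univ _)).1 hc
      obtain ⟨C, hCX, hC⟩ := hd.exists_isCircuit_subset
      obtain ⟨D, rfl, hD⟩ := hfin C hCX
      exact ⟨D, hC, hD⟩
  · left
    have hd : M.Dep X := (Matroid.not_indep_iff (by rw [hE]; exact Set.subset_univ _)).1 hi
    obtain ⟨C, hCX, hC⟩ := hd.exists_isCircuit_subset
    obtain ⟨D, rfl, hD⟩ := hfin C hCX
    exact ⟨D, hC, hD⟩

theorem sep_cases {n k : ℕ} (M : Matroid (Fin n)) (hE : M.E = Set.univ) (h : ¬ KConn k M) :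
    (∃ C : Finset (Fin n), M.IsCircuit (C : Set (Fin n)) ∧ C.card ≤ k + 2) ∨
    (∃ C : Finset (Fin n), M✶.IsCircuit (C : Set (Fin n)) ∧ C.card ≤ k + 2) ∨
    (∃ (X : Finset (Fin n)) (b : ℕ), k + 3 ≤ X.card ∧ k + 3 ≤ Xᶜ.card ∧
      ∀ Z ∈ bs_22726 M, b ≤ (Z ∩ X).card ∧ (Z ∩ X).card ≤ b + k) := by
  classical
  unfold KConn at h
  push Not at h
  obtain ⟨j, hjk, X, Y, hXY, hU, hX, hY, hr⟩ := h
  rw [hE] at hU
  have hYX : Y = Xᶜ := by
    ext x
    constructor
    · intro hx hx'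
      exact Set.disjoint_left.1 hXY hx' hx
    · intro hx
      have : x ∈ X ∪ Y := by rw [hU]; exact Set.mem_univ x
      rcases this with h | h
      · exact absurd h hx
      · exact h
  have hXY' : X = Yᶜ := by rw [hYX, compl_compl]
  by_cases hs1 : X.encard ≤ ((k + 2 : ℕ) : ℕ∞)
  · rcases small_side M hE X Y hYX hX hr hs1 with h | h
    · exact Or.inl h
    · exact Or.inr (Or.inl h)
  by_cases hs2 : Y.encard ≤ ((k + 2 : ℕ) : ℕ∞)
  · rcases small_side M hE Y X hXY' hY (by rw [add_comm (M.eRk Y)]; exact hr) hs2 with h | h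
    · exact Or.inl h
    · exact Or.inr (Or.inl h)
  right; right
  lift X to Finset (Fin n) using X.toFinite
  lift Y to Finset (Fin n) using Y.toFinite
  have hYX' : Y = Xᶜ := by
    rw [← Finset.coe_compl] at hYX
    exact_mod_cast hYX
  have g1 : M.eRank ≠ ⊤ := (Matroid.eRank_ne_top_iff M).2 inferInstance
  have g2 : ∀ S : Set (Fin n), M.eRk S ≠ ⊤ := fun S =>
    ne_top_of_le_ne_top g1 (M.eRk_le_eRank S)
  obtain ⟨a, ha⟩ := ENat.ne_top_iff_exists.1 g1
  obtain ⟨x, hx⟩ := ENat.ne_top_iff_exists.1 (g2 X)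
  obtain ⟨y, hy⟩ := ENat.ne_top_iff_exists.1 (g2 Y)
  rw [← ha, ← hx, ← hy] at hr
  have hr' : x + y + 1 ≤ a + j := by exact_mod_cast hr
  refine ⟨X, x - k, ?_, ?_, ?_⟩
  · rw [Set.encard_coe_eq_coe_finsetCard] at hs1
    have : ¬ (X.card ≤ k + 2) := by exact_mod_cast hs1
    omega
  · rw [← hYX']
    rw [Set.encard_coe_eq_coe_finsetCard] at hs2
    have : ¬ (Y.card ≤ k + 2) := by exact_mod_cast hs2
    omega
  · intro Z hZ
    rw [mem_bs_22726] at hZ
    have e1 : Z.card = a := by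
      have := hZ.encard_eq_eRank
      rw [Set.encard_coe_eq_coe_finsetCard, ← ha] at this
      exact_mod_cast this
    have e2 : ∀ (S : Finset (Fin n)) (s : ℕ), (s : ℕ∞) = M.eRk (S : Set (Fin n)) →
        (Z ∩ S).card ≤ s := by
      intro S s hs
      have h1 : M.Indep ((Z ∩ S : Finset (Fin n)) : Set (Fin n)) := by
        apply hZ.indep.subset
        rw [Finset.coe_inter]
        exact Set.inter_subset_left
      have h2 := h1.encard_le_eRk_of_subset (X := (S : Set (Fin n))) (by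
        rw [Finset.coe_inter]
        exact Set.inter_subset_right)
      rw [Set.encard_coe_eq_coe_finsetCard, ← hs] at h2
      exact_mod_cast h2
    have e3 := e2 X x hx
    have e4 := e2 Y y hy
    have e5 : (Z ∩ X).card + (Z ∩ Y).card = Z.card := by
      rw [hYX', ← Finset.card_union_of_disjoint, ← Finset.inter_union_distrib_left,
        Finset.union_compl, Finset.inter_univ]
      rw [Finset.disjoint_left]
      intro u hu hu'
      exact (Finset.mem_compl.1 (Finset.mem_inter.1 hu').2) (Finset.mem_inter.1 hu).2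
    omega

/-- the dual of a labelled matroid -/
def dl {n : ℕ} (M : LM n) : LM n := ⟨M.1✶, by rw [Matroid.dual_ground, M.2]⟩

theorem dl_dl {n : ℕ} (M : LM n) : dl (dl M) = M := by
  apply Subtype.ext
  simp [dl]

/-- the base family is bad -/
def Bad {n : ℕ} (k : ℕ) (M : LM n) : Prop := ∃ r ∈ range (n + 1), bs_22726 M.1 ∈ badR n r k

theorem bad_of {n k : ℕ} (M : LM n)
    (h : (∃ Γ : Finset (Fin n), 2 ≤ Γ.card ∧ Γ.card ≤ k + 2 ∧ circ (bs_22726 M.1) Γ) ∨
    (∃ (X : Finset (Fin n)) (b : ℕ), k + 3 ≤ X.card ∧ k + 3 ≤ Xᶜ.card ∧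
      ∀ Z ∈ bs_22726 M.1, b ≤ (Z ∩ X).card ∧ (Z ∩ X).card ≤ b + k)) : Bad k M := by
  classical
  obtain ⟨r, hr, hB⟩ := bs_isBF_22726 M.1
  refine ⟨r, mem_range.2 (by omega), ?_⟩
  unfold badR
  rw [mem_filter]
  exact ⟨mem_BF.2 hB, h⟩

theorem cases_LM {n k : ℕ} (M : LM n) (h : ¬ KConn k M.1) :
    Bad k M ∨ Bad k (dl M) ∨ (∃ e, M.1.IsLoop e) ∨ (∃ e, (dl M).1.IsLoop e) := by
  have hcirc : ∀ N : LM n, ∀ C : Finset (Fin n), N.1.IsCircuit (C : Set (Fin n)) →
      C.card ≤ k + 2 → Bad k N ∨ ∃ e, N.1.IsLoop e := by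
    intro N C hC hk
    have hne : C.card ≠ 0 := by
      intro h0
      rw [Finset.card_eq_zero] at h0
      have := hC.nonempty
      rw [h0] at this
      simp at this
    by_cases h1 : C.card = 1
    · right
      obtain ⟨e, rfl⟩ := Finset.card_eq_one.1 h1
      refine ⟨e, ?_⟩
      rw [Finset.coe_singleton, Matroid.singleton_isCircuit] at hC
      exact hC
    · left
      exact bad_of N (Or.inl ⟨C, by omega, hk, circ_bs N.1 N.2 C hC⟩)
  rcases sep_cases M.1 M.2 h with ⟨C, hC, hk⟩ | ⟨C, hC, hk⟩ | h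
  · rcases hcirc M C hC hk with h | h
    · exact Or.inl h
    · exact Or.inr (Or.inr (Or.inl h))
  · rcases hcirc (dl M) C hC hk with h | h
    · exact Or.inr (Or.inl h)
    · exact Or.inr (Or.inr (Or.inr h))
  · exact Or.inl (bad_of M (Or.inr h))

end Pool.Agent.Y432.KC
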