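import Pool.Agent.Y432.KC.K6

set_option autoImplicit false

namespace Pool.Agent.Y432.KC

open Finset Pool.Agent.Helper46.A Pool.Agent.Helper46
open Pool.Agent.Helper46.A.F (bs_22726 mem_bs_22726 bs_isBF_22726 bs_inj_22726 finX_22726)

open Classical in
noncomputable instance instFtLM (n : ℕ) : Fintype (LM n) :=
  @Fintype.ofFinite _ (finX_22726 n)

open Classical in
/-- the labelled matroids with the property `P` -/
noncomputable def Cl {n : ℕ} (P : LM n → Prop) : Finset (LM n) := univ.filter P

theorem mem_Cl {n : ℕ} {P : LM n → Prop} {M : LM n} : M ∈ Cl P ↔ P M := by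
  unfold Cl
  simp

theorem natcard_Cl {n : ℕ} (P : LM n → Prop) : Nat.card {M : LM n // P M} = (Cl P).card := by
  classical
  unfold Cl
  rw [Nat.card_eq_fintype_card, Fintype.card_subtype]

theorem card_bad (n k : ℕ) :
    (Cl (Bad (n := n) k)).card ≤ ∑ r ∈ range (n + 1), (badR n r k).card := by
  classical
  rw [← Finset.card_image_of_injective (Cl (Bad (n := n) k)) (bs_inj_22726 (n := n))]
  refine le_trans (Finset.card_le_card ?_) Finset.card_biUnion_le
  intro B hB
  rw [Finset.mem_image] at hB
  obtain ⟨M, hM, rfl⟩ := hB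
  rw [mem_Cl] at hM
  obtain ⟨r, hr, h⟩ := hM
  rw [Finset.mem_biUnion]
  exact ⟨r, hr, h⟩

theorem card_dl {n : ℕ} (P : LM n → Prop) :
    (Cl (fun M => P (dl M))).card ≤ (Cl P).card := by
  classical
  refine Finset.card_le_card_of_injOn dl ?_ ?_
  · intro M hM
    rw [mem_coe, mem_Cl] at hM ⊢
    exact hM
  · intro M _ N _ h
    rw [← dl_dl M, ← dl_dl N, h]

/-- make `e` parallel to `b` -/
def par {n : ℕ} (e b : Fin n) (M : LM n) : LM n :=
  ⟨M.1.comap (fun x => if x = e then b else x), by
    rw [Matroid.comap_ground_eq, M.2, Set.preimage_univ]⟩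

theorem par_indep {n : ℕ} (e b : Fin n) (M : LM n) (I : Set (Fin n)) (he : e ∉ I) :
    (par e b M).1.Indep I ↔ M.1.Indep I := by
  have h1 : ∀ x ∈ I, (fun x => if x = e then b else x) x = x := by
    intro x hx
    have : x ≠ e := by
      rintro rfl
      exact he hx
    simp [this]
  have h2 : (fun x => if x = e then b else x) '' I = I := by
    rw [Set.image_congr h1]
    exact Set.image_id' I
  have h3 : Set.InjOn (fun x => if x = e then b else x) I := by
    intro x hx y hy hxy
    rw [h1 x hx, h1 y hy] at hxy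
    exact hxy
  show (M.1.comap (fun x => if x = e then b else x)).Indep I ↔ _
  rw [Matroid.comap_indep_iff, h2]
  exact ⟨fun h => h.1, fun h => ⟨h, h3⟩⟩

theorem par_circ {n : ℕ} (e b : Fin n) (heb : e ≠ b) (M : LM n) (hb : M.1.IsNonloop b) :
    circ (bs_22726 (par e b M).1) {e, b} := by
  classical
  unfold circ
  rw [indep_bs]
  have hbi : M.1.Indep {b} := hb.indep
  constructor
  · intro h
    have h' : (M.1.comap (fun x => if x = e then b else x)).Indep
        ((({e, b} : Finset (Fin n))) : Set (Fin n)) := h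
    rw [Matroid.comap_indep_iff] at h'
    apply heb
    apply h'.2 (by simp) (by simp)
    simp
  · intro x hx
    rw [indep_bs]
    rw [mem_insert, mem_singleton] at hx
    rcases hx with rfl | rfl
    · have e1 : ({x, b} : Finset (Fin n)).erase x = {b} := by
        rw [Finset.erase_insert]
        simpa using heb
      rw [e1, par_indep x b M _ (by simpa using heb), coe_singleton]
      exact hbi
    · have e1 : ({e, x} : Finset (Fin n)).erase x = {e} := by
        rw [Finset.pair_comm, Finset.erase_insert]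
        simpa using heb.symm
      rw [e1, coe_singleton]
      show (M.1.comap (fun y => if y = e then x else y)).Indep {e}
      rw [Matroid.comap_indep_iff, Set.image_singleton]
      refine ⟨by simpa using hbi, Set.injOn_singleton _ _⟩

theorem par_bad {n k : ℕ} (e b : Fin n) (heb : e ≠ b) (M : LM n) (hb : M.1.IsNonloop b) :
    Bad k (par e b M) := by
  apply bad_of
  left
  refine ⟨{e, b}, ?_, ?_, par_circ e b heb M hb⟩
  · rw [card_pair heb]
  · rw [card_pair heb]
    omega

theorem card_loop_one {n k : ℕ} (e b : Fin n) :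
    (Cl (fun M : LM n => M.1.IsLoop e ∧ M.1.IsNonloop b)).card ≤ (Cl (Bad (n := n) k)).card := by
  classical
  refine Finset.card_le_card_of_injOn (par e b) ?_ ?_
  · intro M hM
    rw [mem_coe, mem_Cl] at hM ⊢
    have heb : e ≠ b := by
      rintro rfl
      exact hM.1.not_isNonloop hM.2
    exact par_bad e b heb M hM.2
  · intro M hM N hN h
    rw [mem_coe, mem_Cl] at hM hN
    apply Subtype.ext
    apply Matroid.ext_indep (by rw [M.2, N.2])
    intro I _
    by_cases he : e ∈ I
    · exact ⟨fun h => absurd h (hM.1.not_indep_of_mem he),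
        fun h => absurd h (hN.1.not_indep_of_mem he)⟩
    · rw [← par_indep e b M I he, ← par_indep e b N I he, h]

theorem card_all_loops {n : ℕ} :
    (Cl (fun M : LM n => ∀ e, M.1.IsLoop e)).card ≤ 1 := by
  rw [Finset.card_le_one]
  intro M hM N hN
  rw [mem_Cl] at hM hN
  apply Subtype.ext
  apply Matroid.ext_indep (by rw [M.2, N.2])
  intro I _
  by_cases hI : I = ∅
  · rw [hI]
    simp
  · obtain ⟨e, he⟩ := Set.nonempty_iff_ne_empty.2 hI
    exact ⟨fun h => absurd h ((hM e).not_indep_of_mem he),
        fun h => absurd h ((hN e).not_indep_of_mem he)⟩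

theorem card_loop (n k : ℕ) :
    (Cl (fun M : LM n => ∃ e, M.1.IsLoop e)).card ≤ 1 + n ^ 2 * (Cl (Bad (n := n) k)).card := by
  classical
  have hsub : Cl (fun M : LM n => ∃ e, M.1.IsLoop e) ⊆ Cl (fun M : LM n => ∀ e, M.1.IsLoop e) ∪
      ((univ : Finset (Fin n)) ×ˢ (univ : Finset (Fin n))).biUnion
        (fun p => Cl (fun M : LM n => M.1.IsLoop p.1 ∧ M.1.IsNonloop p.2)) := by
    intro M hM
    rw [mem_Cl] at hM
    obtain ⟨e, he⟩ := hM
    rw [mem_union, mem_Cl]
    by_cases h : ∀ e, M.1.IsLoop e
    · exact Or.inl h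
    · right
      push Not at h
      obtain ⟨b, hb⟩ := h
      rw [mem_biUnion]
      refine ⟨(e, b), by simp, ?_⟩
      rw [mem_Cl]
      exact ⟨he, (Matroid.not_isLoop_iff (by rw [M.2]; exact Set.mem_univ _)).1 hb⟩
  refine (card_le_card hsub).trans ((card_union_le _ _).trans ?_)
  refine Nat.add_le_add card_all_loops ?_
  refine card_biUnion_le.trans ?_
  calc _ ≤ ∑ p ∈ ((univ : Finset (Fin n)) ×ˢ (univ : Finset (Fin n))),
        (Cl (Bad (n := n) k)).card := sum_le_sum fun p _ => card_loop_one p.1 p.2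
    _ = _ := by
      rw [sum_const, card_product, card_univ, Fintype.card_fin, smul_eq_mul, sq]

theorem card_not (n k : ℕ) :
    (Cl (fun M : LM n => ¬ KConn k M.1)).card ≤
      2 * (∑ r ∈ range (n + 1), (badR n r k).card) +
        2 * (1 + n ^ 2 * (∑ r ∈ range (n + 1), (badR n r k).card)) := by
  classical
  have hsub : Cl (fun M : LM n => ¬ KConn k M.1) ⊆ (Cl (Bad (n := n) k) ∪
      Cl (fun M : LM n => Bad k (dl M))) ∪ (Cl (fun M : LM n => ∃ e, M.1.IsLoop e) ∪
      Cl (fun M : LM n => ∃ e, (dl M).1.IsLoop e)) := by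
    intro M hM
    rw [mem_Cl] at hM
    simp only [mem_union, mem_Cl]
    rcases cases_LM M hM with h | h | h | h
    · exact Or.inl (Or.inl h)
    · exact Or.inl (Or.inr h)
    · exact Or.inr (Or.inl h)
    · exact Or.inr (Or.inr h)
  have h1 := card_le_card hsub
  have h2 := card_union_le (Cl (Bad (n := n) k) ∪ Cl (fun M : LM n => Bad k (dl M)))
    (Cl (fun M : LM n => ∃ e, M.1.IsLoop e) ∪ Cl (fun M : LM n => ∃ e, (dl M).1.IsLoop e))
  have h3 := card_union_le (Cl (Bad (n := n) k)) (Cl (fun M : LM n => Bad k (dl M)))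
  have h4 := card_union_le (Cl (fun M : LM n => ∃ e, M.1.IsLoop e))
    (Cl (fun M : LM n => ∃ e, (dl M).1.IsLoop e))
  have h5 := card_bad n k
  have h6 := card_dl (Bad (n := n) k)
  have h7 := card_loop n k
  have h8 := card_dl (fun M : LM n => ∃ e, M.1.IsLoop e)
  have h9 : n ^ 2 * (Cl (Bad (n := n) k)).card ≤
      n ^ 2 * (∑ r ∈ range (n + 1), (badR n r k).card) := Nat.mul_le_mul_left _ h5
  omega

end Pool.Agent.Y432.KC
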